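import Pool.Agent.Work.MP_3bf421_lc.Chain

/-!
# Forests of a multigraph are the independent sets of the `ZMod 2` incidence vectors
-/

set_option autoImplicit false

namespace Pool.Agent.GMS

open Finset

/-- `F` is the edge set of a forest of the multigraph with ends `ends`: no loops, no two parallel
edges, and the simple graph formed by the edges has no cycle -/
def IsForest {V E : Type*} (ends : E → Sym2 V) (F : Set E) : Prop :=
  (∀ e ∈ F, ¬ (ends e).IsDiag) ∧ Set.InjOn ends F ∧
    (SimpleGraph.fromEdgeSet (ends '' F)).IsAcyclic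

section Bridge

variable {E V : Type*} [Fintype E] [DecidableEq E] [DecidableEq V]

theorem inc_of_sym2 {p q : V × V} (h : s(p.1, p.2) = s(q.1, q.2)) : inc p = inc q := by
  obtain ⟨a, b⟩ := p
  obtain ⟨c, d⟩ := q
  rcases Sym2.eq_iff.1 h with ⟨h1, h2⟩ | ⟨h1, h2⟩
  · simp only at h1 h2
    rw [h1, h2]
  · simp only at h1 h2
    rw [h1, h2, inc_comm]

/-- a walk gives a chain -/
theorem chain_of_walk (a : E → V × V) (F : Set E) {G : SimpleGraph V}
    (hG : ∀ x y, G.Adj x y → ∃ f ∈ F, s((a f).1, (a f).2) = s(x, y)) {x y : V}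
    (p : G.Walk x y) : ∃ c, SuppIn F c ∧ bd a c = inc (x, y) := by
  induction p with
  | nil => exact ⟨0, fun _ _ => rfl, by rw [map_zero, inc, vadd_self]⟩
  | @cons x z y hadj p ih =>
    obtain ⟨c, hc, hb⟩ := ih
    obtain ⟨f, hf, hfe⟩ := hG x z hadj
    refine ⟨c + Pi.single f 1, hc.add (SuppIn.single hf 1), ?_⟩
    rw [bd_add, hb, bd_single, inc_of_sym2 (q := (x, z)) hfe]
    simp only [inc]
    have : (Pi.single z 1 + Pi.single y 1 + (Pi.single x 1 + Pi.single z 1) : V → ZMod 2)
        = (Pi.single z 1 + Pi.single z 1) + (Pi.single x 1 + Pi.single y 1) := by abel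
    rw [this, vadd_self, zero_add]

theorem forest_of_ind (a : E → V × V) (F : Set E) (hI : Ind a F) :
    IsForest (fun e => s((a e).1, (a e).2)) F := by
  refine ⟨?_, ?_, ?_⟩
  · intro e he hd
    have h0 : bd a (Pi.single e 1) = 0 := by
      rw [bd_single, inc_eq_zero_iff]
      exact Sym2.mk_isDiag_iff.1 hd
    have := congrFun (hI _ (SuppIn.single he 1) h0) e
    simp at this
  · intro e he e' he' h
    by_contra hne
    have h0 : bd a (Pi.single e 1 + Pi.single e' 1) = 0 := by
      rw [bd_add, bd_single, bd_single, inc_of_sym2 h, vadd_self]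
    have := congrFun (hI _ ((SuppIn.single he 1).add (SuppIn.single he' 1)) h0) e
    simp [Pi.single_eq_of_ne hne] at this
  · rw [SimpleGraph.isAcyclic_iff_forall_adj_isBridge]
    intro x y hxy
    rw [SimpleGraph.fromEdgeSet_adj] at hxy
    obtain ⟨⟨e, he, hexy⟩, hne⟩ := hxy
    rw [SimpleGraph.isBridge_iff]
    intro hreach
    obtain ⟨p⟩ := hreach
    obtain ⟨c, hc, hb⟩ := chain_of_walk a (F \ {e}) (by
      intro x' y' hadj
      rw [SimpleGraph.deleteEdges_adj, SimpleGraph.fromEdgeSet_adj] at hadj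
      obtain ⟨⟨⟨f, hf, hfe⟩, _⟩, hne'⟩ := hadj
      refine ⟨f, ⟨hf, ?_⟩, hfe⟩
      intro h
      rw [Set.mem_singleton_iff] at h
      apply hne'
      rw [Set.mem_singleton_iff, ← hfe, h]
      exact hexy) p
    have h0 : bd a (c + Pi.single e 1) = 0 := by
      rw [bd_add, hb, bd_single, inc_of_sym2 (q := (x, y)) hexy, vadd_self]
    have h1 := hI _ ((hc.mono Set.sdiff_subset).add (SuppIn.single he 1)) h0
    have h2 := congrFun h1 e
    have h3 : c e = 0 := hc e (by simp)
    simp [h3] at h2

omit [DecidableEq E] in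
theorem ind_of_forest (a : E → V × V) (F : Set E)
    (hF : IsForest (fun e => s((a e).1, (a e).2)) F) : Ind a F := by
  classical
  obtain ⟨hdiag, hinj, hac⟩ := hF
  intro c hc hb
  by_contra hne
  obtain ⟨e, he⟩ : ∃ e, c e ≠ 0 := by
    by_contra h'
    push Not at h'
    exact hne (funext h')
  have hcF : ∀ f, c f ≠ 0 → f ∈ F := by
    intro f hf
    by_contra h'
    exact hf (hc f h')
  have heF := hcF e he
  set x := (a e).1 with hx
  set y := (a e).2 with hy
  have hxy : x ≠ y := by
    intro h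
    exact hdiag e heF (Sym2.mk_isDiag_iff.2 h)
  rw [SimpleGraph.isAcyclic_iff_forall_adj_isBridge] at hac
  set G := SimpleGraph.fromEdgeSet ((fun e => s((a e).1, (a e).2)) '' F) with hG
  have hadj : G.Adj x y := by
    rw [hG, SimpleGraph.fromEdgeSet_adj]
    exact ⟨⟨e, heF, rfl⟩, hxy⟩
  have hbr := hac hadj
  rw [SimpleGraph.isBridge_iff] at hbr
  set X : Set V := {z | (G.deleteEdges {s(x, y)}).Reachable x z} with hX
  have hxX : x ∈ X := SimpleGraph.Reachable.refl x
  have hyX : y ∉ X := hbr
  -- the finite set of ends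
  set U : Finset V := (univ.image fun f => (a f).1) ∪ (univ.image fun f => (a f).2) with hU
  have hU1 : ∀ f, (a f).1 ∈ U := fun f =>
    Finset.mem_union_left _ (Finset.mem_image_of_mem _ (Finset.mem_univ _))
  have hU2 : ∀ f, (a f).2 ∈ U := fun f =>
    Finset.mem_union_right _ (Finset.mem_image_of_mem _ (Finset.mem_univ _))
  have hL : ∀ p : V × V, p.1 ∈ U → p.2 ∈ U → ∑ z ∈ U.filter (fun z => z ∈ X), inc p z
      = (if p.1 ∈ X then 1 else 0) + (if p.2 ∈ X then 1 else 0) := by
    intro p h1 h2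
    simp only [inc, Pi.add_apply, Finset.sum_add_distrib, Pi.single_apply]
    rw [Finset.sum_ite_eq', Finset.sum_ite_eq']
    simp [h1, h2]
  have h0 : ∑ z ∈ U.filter (fun z => z ∈ X), bd a c z = 0 := by
    rw [hb]; simp
  simp only [bd_apply, Finset.sum_apply] at h0
  rw [Finset.sum_comm, Finset.sum_eq_single e] at h0
  · simp only [Pi.smul_apply] at h0
    rw [← Finset.smul_sum, hL _ (hU1 e) (hU2 e), if_pos hxX, if_neg hyX, z2_ne he] at h0
    simp at h0
  · intro f _ hfe
    simp only [Pi.smul_apply]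
    rw [← Finset.smul_sum, hL _ (hU1 f) (hU2 f)]
    by_cases hcf : c f = 0
    · simp [hcf]
    have hfF := hcF f hcf
    have hpq : (a f).1 ≠ (a f).2 := by
      intro h
      exact hdiag f hfF (Sym2.mk_isDiag_iff.2 h)
    have hadj' : (G.deleteEdges {s(x, y)}).Adj (a f).1 (a f).2 := by
      rw [SimpleGraph.deleteEdges_adj, hG, SimpleGraph.fromEdgeSet_adj]
      refine ⟨⟨⟨f, hfF, rfl⟩, hpq⟩, ?_⟩
      intro h
      exact hfe (hinj hfF heF h)
    have hiff : (a f).1 ∈ X ↔ (a f).2 ∈ X := by
      constructor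
      · intro h; exact h.trans hadj'.reachable
      · intro h; exact h.trans hadj'.reachable.symm
    by_cases h1 : (a f).1 ∈ X
    · rw [if_pos h1, if_pos (hiff.1 h1), z2_add_self, smul_zero]
    · rw [if_neg h1, if_neg (fun h => h1 (hiff.2 h)), add_zero, smul_zero]
  · simp

omit [DecidableEq E] in
/-- renaming the vertices injectively on the ends does not change independence -/
theorem ind_rename {W : Type*} [DecidableEq W] (a : E → V × V) (ι : V → W)
    (hι : ∀ x y, (∃ f, x = (a f).1 ∨ x = (a f).2) → (∃ f, y = (a f).1 ∨ y = (a f).2) →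
      ι x = ι y → x = y) (F : Set E) :
    Ind (fun e => (ι (a e).1, ι (a e).2)) F ↔ Ind a F := by
  have key : ∀ c : E → ZMod 2, bd (fun e => (ι (a e).1, ι (a e).2)) c = 0 ↔ bd a c = 0 := by
    intro c
    have h1 : ∀ z, (∃ f, z = (a f).1 ∨ z = (a f).2) →
        bd (fun e => (ι (a e).1, ι (a e).2)) c (ι z) = bd a c z := by
      intro z hz
      rw [bd_apply, bd_apply, Finset.sum_apply, Finset.sum_apply]
      refine Finset.sum_congr rfl fun f _ => ?_
      simp only [Pi.smul_apply, inc, Pi.add_apply, Pi.single_apply]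
      have e1 : (ι z = ι (a f).1) ↔ (z = (a f).1) :=
        ⟨hι _ _ hz ⟨f, Or.inl rfl⟩, fun h => by rw [h]⟩
      have e2 : (ι z = ι (a f).2) ↔ (z = (a f).2) :=
        ⟨hι _ _ hz ⟨f, Or.inr rfl⟩, fun h => by rw [h]⟩
      simp only [e1, e2]
    constructor
    · intro h
      funext z
      by_cases hz : ∃ f, z = (a f).1 ∨ z = (a f).2
      · rw [← h1 z hz, h]; rfl
      · rw [bd_apply, Finset.sum_apply]
        refine Finset.sum_eq_zero fun f _ => ?_
        rw [Pi.smul_apply, inc_apply_ne (fun h => hz ⟨f, Or.inl h⟩)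
          (fun h => hz ⟨f, Or.inr h⟩), smul_zero]
    · intro h
      funext w
      by_cases hw : ∃ f, w = ι (a f).1 ∨ w = ι (a f).2
      · obtain ⟨f, hf | hf⟩ := hw
        · rw [hf, h1 _ ⟨f, Or.inl rfl⟩, h]; rfl
        · rw [hf, h1 _ ⟨f, Or.inr rfl⟩, h]; rfl
      · rw [bd_apply, Finset.sum_apply]
        refine Finset.sum_eq_zero fun f _ => ?_
        rw [Pi.smul_apply, inc_apply_ne (fun h => hw ⟨f, Or.inl h⟩)
          (fun h => hw ⟨f, Or.inr h⟩), smul_zero]
  unfold Ind
  refine forall_congr' fun c => imp_congr_right fun _ => ?_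
  rw [key c]

end Bridge

/-- the forests of a multigraph on `n` edges are the independent sets of a graph with vertex names
in `Fin (2 * n + 1)` -/
theorem exists_names {n : ℕ} {V : Type*} (ends : Fin n → Sym2 V) :
    ∃ g : Fin n → Fin (2 * n + 1) × Fin (2 * n + 1),
      ∀ F : Set (Fin n), IsForest ends F ↔ Ind g F := by
  classical
  have hex : ∀ q : Sym2 V, ∃ p : V × V, s(p.1, p.2) = q := by
    intro q
    induction q using Sym2.ind with
    | _ x y => exact ⟨(x, y), rfl⟩
  choose out hout using hex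
  let a : Fin n → V × V := fun e => out (ends e)
  have ha : (fun e => s((a e).1, (a e).2)) = ends := by
    funext e
    exact hout _
  set U : Finset V := (univ.image fun f => (a f).1) ∪ (univ.image fun f => (a f).2) with hU
  have hUc : U.card ≤ 2 * n := by
    refine (Finset.card_union_le _ _).trans ?_
    have h1 : (univ.image fun f => (a f).1).card ≤ n :=
      Finset.card_image_le.trans (by simp)
    have h2 : (univ.image fun f => (a f).2).card ≤ n :=
      Finset.card_image_le.trans (by simp)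
    omega
  let ι : V → Fin (2 * n + 1) := fun z =>
    if h : z ∈ U then ⟨(U.equivFin ⟨z, h⟩).val, by
      have := (U.equivFin ⟨z, h⟩).2; omega⟩ else ⟨0, by omega⟩
  have hι : ∀ x y, (∃ f, x = (a f).1 ∨ x = (a f).2) → (∃ f, y = (a f).1 ∨ y = (a f).2) →
      ι x = ι y → x = y := by
    have hmem : ∀ x, (∃ f, x = (a f).1 ∨ x = (a f).2) → x ∈ U := by
      rintro x ⟨f, hf | hf⟩
      · rw [hf]; exact Finset.mem_union_left _ (Finset.mem_image_of_mem _ (Finset.mem_univ _))
      · rw [hf]; exact Finset.mem_union_right _ (Finset.mem_image_of_mem _ (Finset.mem_univ _))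
    intro x y hx hy h
    have hxU := hmem x hx
    have hyU := hmem y hy
    simp only [ι, dif_pos hxU, dif_pos hyU, Fin.mk.injEq] at h
    have := U.equivFin.injective (Fin.ext h)
    simpa using this
  refine ⟨fun e => (ι (a e).1, ι (a e).2), fun F => ?_⟩
  rw [ind_rename a ι hι F, ← ha]
  exact ⟨ind_of_forest a F, forest_of_ind a F⟩

end Pool.Agent.GMS
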