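import Pool.Agent.Work.MP_3bf421_lc.Average

/-!
# The online rule and its value
-/

set_option autoImplicit false

namespace Pool.Agent.GMS

open Finset

/-- vertex names -/
abbrev VN (n : ℕ) : Type := Fin (2 * n + 1)

/-- the coins of the rule: colours for the greedy basis, a red/blue colouring of the vertex names,
and one of three modes -/
abbrev Seed (n : ℕ) : Type := (Fin n → K4) × ((VN n → Bool) × Fin 3)

/-- acceptance, as a function of a graph realising the arrived elements -/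
def accS {n : ℕ} (s : Seed n) (γ : Fin n → VN n × VN n) (ω : Fin n → ℝ) (i : Fin n) : Prop :=
  (s.2.2 = 0 ∧ accC s.1 γ i) ∨
  (s.2.2 = 1 ∧ accK (n - 2 * (n / 4)) (n / 4) true s.2.1 γ ω i) ∨
  (s.2.2 = 2 ∧ accK (n - 2 * (n / 4)) (n / 4) false s.2.1 γ ω i)

theorem ind_accS {n : ℕ} (s : Seed n) (γ : Fin n → VN n × VN n) (ω : Fin n → ℝ) :
    Ind γ {i | accS s γ ω i} := by
  obtain ⟨b, ξ, t⟩ := s
  unfold accS
  simp only
  fin_cases t
  · simpa using ind_accC b γ
  · simpa using ind_accK (n - 2 * (n / 4)) (n / 4) true ξ γ ω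
  · simpa using ind_accK (n - 2 * (n / 4)) (n / 4) false ξ γ ω

theorem Cyc.accS {n : ℕ} (s : Seed n) {γ γ' : Fin n → VN n × VN n} {ω ω' : Fin n → ℝ}
    {i : Fin n} (h : Cyc γ γ' i) (hω : ∀ j ≤ i, ω j = ω' j) :
    accS s γ ω i ↔ accS s γ' ω' i := by
  unfold GMS.accS
  rw [h.accC_iff s.1, h.accK hω, h.accK hω]

theorem cyc_of_same_ind {n : ℕ} {γ γ' : Fin n → VN n × VN n} {i : Fin n}
    (h : ∀ Z : Set (Fin n), Ind γ (Z ∩ Set.Iic i) ↔ Ind γ' (Z ∩ Set.Iic i)) : Cyc γ γ' i := by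
  have h' : ∀ Z : Set (Fin n), Z ⊆ Set.Iic i → (Ind γ Z ↔ Ind γ' Z) := by
    intro Z hZ
    have := h Z
    rwa [Set.inter_eq_left.2 hZ] at this
  exact fun c hc => ⟨cyc_of_ind h' c hc, cyc_of_ind (fun Z hZ => (h' Z hZ).symm) c hc⟩

/-- the raw rule: it looks for a graph realising what it sees -/
noncomputable def rawD {n : ℕ} (s : Seed n) (i : Fin n) (wt : Fin n → ℝ)
    (P : Set (Fin n) → Prop) : Bool := by
  classical
  exact decide (∃ γ : Fin n → VN n × VN n,
    (∀ Z : Set (Fin n), Ind γ (Z ∩ Set.Iic i) ↔ P Z) ∧ accS s γ wt i)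

/-- what is seen at time `i`: weights -/
def seenW {n : ℕ} (w : Fin n → ℝ) (σ : Equiv.Perm (Fin n)) (i : Fin n) : Fin n → ℝ :=
  fun j => if j ≤ i then w (σ j) else 0

/-- what is seen at time `i`: independence -/
def seenP {n : ℕ} (M : Matroid (Fin n)) (σ : Equiv.Perm (Fin n)) (i : Fin n) :
    Set (Fin n) → Prop := fun S => M.Indep (σ '' (S ∩ Set.Iic i))

open Classical in
theorem rawD_iff {n : ℕ} {M : Matroid (Fin n)} {g : Fin n → VN n × VN n}
    (hg : ∀ Z : Set (Fin n), M.Indep Z ↔ Ind g Z) (w : Fin n → ℝ) (s : Seed n)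
    (σ : Equiv.Perm (Fin n)) (i : Fin n) :
    rawD s i (seenW w σ i) (seenP M σ i) = true ↔ accS s (g ∘ σ) (w ∘ σ) i := by
  have hω : ∀ j ≤ i, seenW w σ i j = (w ∘ σ) j := by
    intro j hj
    simp only [seenW, if_pos hj, Function.comp_apply]
  have hP : ∀ Z : Set (Fin n), Ind (g ∘ σ) (Z ∩ Set.Iic i) ↔ seenP M σ i Z := by
    intro Z
    rw [ind_perm, ← hg]
    exact Iff.rfl
  unfold rawD
  rw [decide_eq_true_iff]
  constructor
  · rintro ⟨γ, hγ, hacc⟩
    have hC : Cyc γ (g ∘ σ) i := cyc_of_same_ind fun Z => by rw [hγ Z, hP Z]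
    exact (hC.accS s hω).1 hacc
  · intro hacc
    exact ⟨g ∘ σ, hP, ((cyc_of_same_ind fun _ => Iff.rfl : Cyc (g ∘ σ) (g ∘ σ) i).accS s hω).2
      hacc⟩

/-- the rule: the raw rule, with a safeguard that makes it valid on every matroid -/
noncomputable def theD {n : ℕ} (s : Seed n) (i : Fin n) (wt : Fin n → ℝ)
    (P : Set (Fin n) → Prop) : Bool := by
  classical
  exact rawD s i wt P && decide (P {j | j ≤ i ∧
    rawD s j (fun k => if k ≤ j then wt k else 0) (fun Z => P (Z ∩ Set.Iic j)) = true})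

theorem seenW_restrict {n : ℕ} (w : Fin n → ℝ) (σ : Equiv.Perm (Fin n)) {i j : Fin n}
    (hj : j ≤ i) : (fun k => if k ≤ j then seenW w σ i k else 0) = seenW w σ j := by
  funext k
  unfold seenW
  by_cases hk : k ≤ j
  · rw [if_pos hk, if_pos hk, if_pos (hk.trans hj)]
  · rw [if_neg hk, if_neg hk]

theorem seenP_restrict {n : ℕ} (M : Matroid (Fin n)) (σ : Equiv.Perm (Fin n)) {i j : Fin n}
    (hj : j ≤ i) : (fun Z => seenP M σ i (Z ∩ Set.Iic j)) = seenP M σ j := by
  funext Z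
  unfold seenP
  rw [Set.inter_assoc, Set.inter_eq_left.2 (Set.Iic_subset_Iic.2 hj)]

open Classical in
theorem theD_iff {n : ℕ} (M : Matroid (Fin n)) (w : Fin n → ℝ) (s : Seed n)
    (σ : Equiv.Perm (Fin n)) (i : Fin n) :
    theD s i (seenW w σ i) (seenP M σ i) = true ↔
      rawD s i (seenW w σ i) (seenP M σ i) = true ∧
      M.Indep (σ '' {j | j ≤ i ∧ rawD s j (seenW w σ j) (seenP M σ j) = true}) := by
  have hset : {j | j ≤ i ∧ rawD s j (fun k => if k ≤ j then seenW w σ i k else 0)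
      (fun Z => seenP M σ i (Z ∩ Set.Iic j)) = true}
      = {j | j ≤ i ∧ rawD s j (seenW w σ j) (seenP M σ j) = true} := by
    ext j
    constructor
    · rintro ⟨hj, h⟩
      rw [seenW_restrict w σ hj, seenP_restrict M σ hj] at h
      exact ⟨hj, h⟩
    · rintro ⟨hj, h⟩
      refine ⟨hj, ?_⟩
      rw [seenW_restrict w σ hj, seenP_restrict M σ hj]
      exact h
  unfold theD
  rw [Bool.and_eq_true, decide_eq_true_iff, hset]
  refine and_congr_right fun _ => ?_
  unfold seenP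
  rw [Set.inter_eq_left.2 (fun j hj => hj.1)]

/-- the rule keeps an independent set, on every matroid -/
theorem theD_indep {n : ℕ} (M : Matroid (Fin n)) (w : Fin n → ℝ)
    (s : Seed n) (σ : Equiv.Perm (Fin n)) :
    M.Indep (σ '' {i | theD s i (seenW w σ i) (seenP M σ i) = true}) := by
  classical
  set A : Finset (Fin n) := univ.filter fun i => theD s i (seenW w σ i) (seenP M σ i) = true
    with hA
  rcases A.eq_empty_or_nonempty with h | h
  · have : {i | theD s i (seenW w σ i) (seenP M σ i) = true} = (∅ : Set (Fin n)) := by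
      ext i
      constructor
      · intro hi
        have : i ∈ A := by rw [hA, Finset.mem_filter]; exact ⟨Finset.mem_univ _, hi⟩
        rw [h] at this
        simp at this
      · intro hi
        exact absurd hi (Set.notMem_empty i)
    rw [this, Set.image_empty]
    exact M.empty_indep
  · have hmax := Finset.max'_mem A h
    set i0 := A.max' h with hi0
    rw [hA, Finset.mem_filter] at hmax
    have h1 := ((theD_iff M w s σ i0).1 hmax.2).2
    apply h1.subset
    apply Set.image_mono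
    intro i hi
    have hiA : i ∈ A := by rw [hA, Finset.mem_filter]; exact ⟨Finset.mem_univ _, hi⟩
    exact ⟨Finset.le_max' A i hiA, ((theD_iff M w s σ i).1 hi).1⟩

/-- on a graphic matroid the safeguard is never used -/
theorem theD_graphic {n : ℕ} {M : Matroid (Fin n)} {g : Fin n → VN n × VN n}
    (hg : ∀ Z : Set (Fin n), M.Indep Z ↔ Ind g Z) (w : Fin n → ℝ) (s : Seed n)
    (σ : Equiv.Perm (Fin n)) (i : Fin n) :
    theD s i (seenW w σ i) (seenP M σ i) = true ↔ accS s (g ∘ σ) (w ∘ σ) i := by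
  rw [theD_iff, rawD_iff hg]
  constructor
  · exact fun h => h.1
  · intro h
    refine ⟨h, ?_⟩
    rw [hg, ← ind_perm]
    apply (ind_accS s (g ∘ σ) (w ∘ σ)).mono
    rintro j ⟨_, hj⟩
    exact (rawD_iff hg w s σ j).1 hj

open Classical in
/-- the total value over all coins, for one order -/
theorem seed_sum {n : ℕ} (g : Fin n → VN n × VN n) (w : Fin n → ℝ) (σ : Equiv.Perm (Fin n)) :
    ∑ s : Seed n, ∑ i : Fin n, (if accS s (g ∘ σ) (w ∘ σ) i then w (σ i) else 0)
      = (Fintype.card (VN n → Bool) : ℝ) *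
          (∑ b : Fin n → K4, ∑ i : Fin n, (if accC b (g ∘ σ) i then w (σ i) else 0))
        + (Fintype.card (Fin n → K4) : ℝ) *
          (∑ ξ : VN n → Bool, ∑ st : Bool, ∑ i : Fin n,
            (if accK (n - 2 * (n / 4)) (n / 4) st ξ (g ∘ σ) (w ∘ σ) i then w (σ i) else 0)) := by
  rw [Fintype.sum_prod_type]
  have h1 : ∀ b : Fin n → K4, ∑ q : (VN n → Bool) × Fin 3, ∑ i : Fin n,
      (if accS (b, q) (g ∘ σ) (w ∘ σ) i then w (σ i) else 0)
      = (Fintype.card (VN n → Bool) : ℝ) *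
          (∑ i : Fin n, (if accC b (g ∘ σ) i then w (σ i) else 0))
        + ∑ ξ : VN n → Bool, ∑ st : Bool, ∑ i : Fin n,
            (if accK (n - 2 * (n / 4)) (n / 4) st ξ (g ∘ σ) (w ∘ σ) i then w (σ i) else 0) := by
    intro b
    rw [Fintype.sum_prod_type]
    have h2 : ∀ ξ : VN n → Bool, ∑ t : Fin 3, ∑ i : Fin n,
        (if accS (b, (ξ, t)) (g ∘ σ) (w ∘ σ) i then w (σ i) else 0)
        = (∑ i : Fin n, (if accC b (g ∘ σ) i then w (σ i) else 0))
          + ∑ st : Bool, ∑ i : Fin n,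
            (if accK (n - 2 * (n / 4)) (n / 4) st ξ (g ∘ σ) (w ∘ σ) i then w (σ i) else 0) := by
      intro ξ
      rw [Fin.sum_univ_three, Fintype.sum_bool]
      simp only [accS]
      simp
      ring
    rw [Finset.sum_congr rfl (fun ξ _ => h2 ξ), Finset.sum_add_distrib, Finset.sum_const,
      Finset.card_univ, nsmul_eq_mul]
  rw [Finset.sum_congr rfl (fun b _ => h1 b), Finset.sum_add_distrib, ← Finset.mul_sum,
    Finset.sum_const, Finset.card_univ, nsmul_eq_mul]

open Classical in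
/-- the value of the rule on a graph -/
theorem value {n : ℕ} (g : Fin n → VN n × VN n) (w : Fin n → ℝ) (hw : ∀ e, 0 ≤ w e)
    (I : Finset (Fin n)) (hI : Ind g (↑I : Set (Fin n))) :
    (Fintype.card (Seed n) : ℝ) * ((n.factorial : ℝ) * ∑ e ∈ I, w e)
      ≤ 192 * ∑ σ : Equiv.Perm (Fin n), ∑ s : Seed n, ∑ i : Fin n,
        (if accS s (g ∘ σ) (w ∘ σ) i then w (σ i) else 0) := by
  rcases Nat.eq_zero_or_pos n with hn0 | hn0
  · subst hn0
    have : I = ∅ := by
      ext e; exact e.elim0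
    rw [this]
    simp
  have hn : (n - 2 * (n / 4)) + 2 * (n / 4) = n := by omega
  have hserved := served hn0 rfl hn w hw hI
  have hK := total_K_avg hn g w hw I hI
  have hC : (Fintype.card (Fin n → K4) : ℝ) *
      ∑ σ : Equiv.Perm (Fin n), ∑ i ∈ cSet g I σ, w (σ i)
      ≤ 16 * ∑ σ : Equiv.Perm (Fin n), ∑ b : Fin n → K4, ∑ i : Fin n,
        (if accC b (g ∘ σ) i then w (σ i) else 0) := by
    rw [Finset.mul_sum, Finset.mul_sum]
    exact Finset.sum_le_sum fun σ _ => total_C g w hw I σ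
  rw [Finset.sum_congr rfl (fun σ _ => seed_sum g w σ), Finset.sum_add_distrib,
    ← Finset.mul_sum, ← Finset.mul_sum]
  have hcard : (Fintype.card (Seed n) : ℝ)
      = (Fintype.card (Fin n → K4) : ℝ) * (Fintype.card (VN n → Bool) : ℝ) * 3 := by
    rw [Fintype.card_prod, Fintype.card_prod, Fintype.card_fin 3]
    push_cast
    ring
  rw [hcard]
  set B : ℝ := (Fintype.card (Fin n → K4) : ℝ) with hB
  set X : ℝ := (Fintype.card (VN n → Bool) : ℝ) with hX
  have hB0 : 0 ≤ B := Nat.cast_nonneg _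
  have hX0 : 0 ≤ X := Nat.cast_nonneg _
  set W : ℝ := (n.factorial : ℝ) * ∑ e ∈ I, w e with hW
  set c1 : ℝ := ∑ σ : Equiv.Perm (Fin n), ∑ i ∈ cSet g I σ, w (σ i) with hc1
  set k1 : ℝ := ∑ σ : Equiv.Perm (Fin n), ∑ j ∈ jSet (n - 2 * (n / 4)) g I σ, w (σ j) with hk1
  set c2 : ℝ := ∑ σ : Equiv.Perm (Fin n), ∑ b : Fin n → K4, ∑ i : Fin n,
        (if accC b (g ∘ σ) i then w (σ i) else 0) with hc2
  set k2 : ℝ := ∑ σ : Equiv.Perm (Fin n), ∑ ξ : VN n → Bool, ∑ st : Bool, ∑ i : Fin n,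
        (if accK (n - 2 * (n / 4)) (n / 4) st ξ (g ∘ σ) (w ∘ σ) i then w (σ i) else 0) with hk2
  have e1 : B * X * W ≤ B * X * (4 * (c1 + k1)) :=
    mul_le_mul_of_nonneg_left hserved (mul_nonneg hB0 hX0)
  have e2 : X * (B * c1) ≤ X * (16 * c2) := mul_le_mul_of_nonneg_left hC hX0
  have e3 : B * (X * k1) ≤ B * (16 * k2) := mul_le_mul_of_nonneg_left hK hB0
  nlinarith

end Pool.Agent.GMS
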