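import Pool.Agent.Work.MP_3bf421_lc.Secretary

/-!
# Averaging over the arrival order
-/

set_option autoImplicit false

namespace Pool.Agent.GMS

open Finset

section Avg

variable {n : ℕ} {V : Type*} [Fintype V] [DecidableEq V] [Nonempty V]

/-- one fixed position of a random order is a uniformly random element -/
theorem sum_perm_apply (f : Fin n → ℝ) (i : Fin n) :
    (n : ℝ) * ∑ σ : Equiv.Perm (Fin n), f (σ i) = (n.factorial : ℝ) * ∑ e, f e := by
  have h1 : ∀ j, ∑ σ : Equiv.Perm (Fin n), f (σ j) = ∑ σ : Equiv.Perm (Fin n), f (σ i) := by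
    intro j
    rw [← Equiv.sum_comp (Equiv.mulRight (Equiv.swap i j))
      (fun σ : Equiv.Perm (Fin n) => f (σ j))]
    refine Finset.sum_congr rfl fun σ _ => ?_
    simp
  have h2 : ∑ j, ∑ σ : Equiv.Perm (Fin n), f (σ j) = (n : ℝ) *
      ∑ σ : Equiv.Perm (Fin n), f (σ i) := by
    rw [Finset.sum_congr rfl (fun j _ => h1 j), Finset.sum_const, Finset.card_univ,
      Fintype.card_fin, nsmul_eq_mul]
  rw [← h2, Finset.sum_comm]
  have h3 : ∀ σ : Equiv.Perm (Fin n), ∑ j, f (σ j) = ∑ e, f e := fun σ => Equiv.sum_comp σ f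
  rw [Finset.sum_congr rfl (fun σ _ => h3 σ), Finset.sum_const, Finset.card_univ,
    Fintype.card_perm, Fintype.card_fin, nsmul_eq_mul]

omit [Fintype V] [Nonempty V] in
theorem ind_perm (g : Fin n → V × V) (σ : Equiv.Perm (Fin n)) (Z : Set (Fin n)) :
    Ind (g ∘ σ) Z ↔ Ind g (σ '' Z) := by
  have hbd : ∀ c : Fin n → ZMod 2, bd (g ∘ σ) c = bd g (c ∘ σ.symm) := by
    intro c
    rw [bd_apply, bd_apply]
    rw [← Equiv.sum_comp σ (fun e => (c ∘ σ.symm) e • inc (g e))]
    refine Finset.sum_congr rfl fun e _ => ?_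
    simp
  constructor
  · intro h c hc hb
    have h1 := h (c ∘ σ) (fun e he => hc (σ e) (fun h' => he (by
      obtain ⟨e', he', hee⟩ := h'
      rwa [σ.injective hee] at he'))) (by
        rw [hbd]
        have : (c ∘ σ) ∘ σ.symm = c := by funext e; simp
        rw [this]; exact hb)
    funext e
    have := congrFun h1 (σ.symm e)
    simpa using this
  · intro h c hc hb
    rw [hbd] at hb
    have h1 := h _ (fun e he => hc (σ.symm e) (fun h' => he ⟨_, h', by simp⟩)) hb
    funext e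
    have := congrFun h1 (σ e)
    simpa using this

open Classical in
/-- positions served by the first mode -/
noncomputable def cSet (g : Fin n → V × V) (I : Finset (Fin n)) (σ : Equiv.Perm (Fin n)) :
    Finset (Fin n) :=
  univ.filter fun i => σ i ∈ I ∧
    ¬ (qset (g ∘ σ) (Set.Iio i) (g (σ i))).card * 16 < Fintype.card (V → K4)

open Classical in
/-- positions served by the second mode -/
noncomputable def jSet (m : ℕ) (g : Fin n → V × V) (I : Finset (Fin n))
    (σ : Equiv.Perm (Fin n)) : Finset (Fin n) :=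
  univ.filter fun j => m ≤ j.val ∧ σ j ∈ I ∧ ∃ x y, Placed m (g ∘ σ) j x y

open Classical in
omit [Nonempty V] in
theorem total_C (g : Fin n → V × V) (w : Fin n → ℝ) (hw : ∀ e, 0 ≤ w e) (I : Finset (Fin n))
    (σ : Equiv.Perm (Fin n)) :
    (Fintype.card (Fin n → K4) : ℝ) * ∑ i ∈ cSet g I σ, w (σ i)
      ≤ 16 * ∑ b : Fin n → K4, ∑ i : Fin n, (if accC b (g ∘ σ) i then w (σ i) else 0) := by
  rw [Finset.sum_comm]
  have h1 : ∀ i, ∑ b : Fin n → K4, (if accC b (g ∘ σ) i then w (σ i) else 0)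
      = ((univ.filter fun b : Fin n → K4 => accC b (g ∘ σ) i).card : ℝ) * w (σ i) := by
    intro i
    rw [← Finset.sum_filter, Finset.sum_const, nsmul_eq_mul]
  rw [Finset.sum_congr rfl (fun i _ => h1 i), Finset.mul_sum, Finset.mul_sum]
  calc ∑ i ∈ cSet g I σ, (Fintype.card (Fin n → K4) : ℝ) * w (σ i)
      ≤ ∑ i ∈ cSet g I σ, 16 *
          (((univ.filter fun b : Fin n → K4 => accC b (g ∘ σ) i).card : ℝ) * w (σ i)) := by
        refine Finset.sum_le_sum fun i hi => ?_
        have hi' := (Finset.mem_filter.1 hi).2.2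
        have h2 := accC_many (g ∘ σ) i hi'
        have h3 : (Fintype.card (Fin n → K4) : ℝ)
          ≤ 16 * ((univ.filter fun b : Fin n → K4 => accC b (g ∘ σ) i).card : ℝ) := by
          exact_mod_cast h2
        nlinarith [mul_le_mul_of_nonneg_right h3 (hw (σ i))]
    _ ≤ ∑ i, 16 *
          (((univ.filter fun b : Fin n → K4 => accC b (g ∘ σ) i).card : ℝ) * w (σ i)) := by
        apply Finset.sum_le_sum_of_subset_of_nonneg (Finset.subset_univ _)
        intro i _ _
        have := hw (σ i)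
        positivity

/-- the swap of positions as a permutation -/
def swP (m h : ℕ) (hn : m + 2 * h = n) (ε : Fin n → Bool) : Equiv.Perm (Fin n) :=
  (sw_invol hn ε).toPerm

open Classical in
theorem total_K_avg {m h : ℕ} (hn : m + 2 * h = n) (g : Fin n → V × V) (w : Fin n → ℝ)
    (hw : ∀ e, 0 ≤ w e) (I : Finset (Fin n)) (hI : Ind g (↑I : Set (Fin n))) :
    (Fintype.card (V → Bool) : ℝ) *
        ∑ σ : Equiv.Perm (Fin n), ∑ j ∈ jSet m g I σ, w (σ j)
      ≤ 16 * ∑ σ : Equiv.Perm (Fin n), ∑ ξ : V → Bool, ∑ st : Bool, ∑ i : Fin n,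
        (if accK m h st ξ (g ∘ σ) (w ∘ σ) i then w (σ i) else 0) := by
  have h1 : ∀ σ : Equiv.Perm (Fin n),
      (Fintype.card (V → Bool) : ℝ) * Fintype.card (Fin n → Bool) *
        ∑ j ∈ jSet m g I σ, w (σ j)
      ≤ 16 * ∑ ξ : V → Bool, ∑ ε : Fin n → Bool, ∑ st : Bool, ∑ i : Fin n,
        (if accK m h st ξ ((g ∘ σ) ∘ sw m h hn ε) ((w ∘ σ) ∘ sw m h hn ε) i then
          (w ∘ σ) (sw m h hn ε i) else 0) := by
    intro σ
    apply total_K hn (ω := w ∘ σ) (fun i => hw _) (jSet m g I σ)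
    · intro j hj
      exact (Finset.mem_filter.1 hj).2.1
    · rw [ind_perm]
      apply hI.mono
      rintro _ ⟨j, hj, rfl⟩
      exact (Finset.mem_filter.1 hj).2.2.1
    · intro j hj
      exact (Finset.mem_filter.1 hj).2.2.2
  have h2 := Finset.sum_le_sum (fun σ (_ : σ ∈ (univ : Finset (Equiv.Perm (Fin n)))) => h1 σ)
  rw [← Finset.mul_sum, ← Finset.mul_sum] at h2
  have h3 : ∑ σ : Equiv.Perm (Fin n), ∑ ξ : V → Bool, ∑ ε : Fin n → Bool, ∑ st : Bool,
      ∑ i : Fin n,
        (if accK m h st ξ ((g ∘ σ) ∘ sw m h hn ε) ((w ∘ σ) ∘ sw m h hn ε) i then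
          (w ∘ σ) (sw m h hn ε i) else 0)
      = (Fintype.card (Fin n → Bool) : ℝ) * ∑ σ : Equiv.Perm (Fin n), ∑ ξ : V → Bool,
        ∑ st : Bool, ∑ i : Fin n,
          (if accK m h st ξ (g ∘ σ) (w ∘ σ) i then w (σ i) else 0) := by
    have e1 : ∀ ξ : V → Bool, ∀ ε : Fin n → Bool,
        ∑ σ : Equiv.Perm (Fin n), ∑ st : Bool, ∑ i : Fin n,
        (if accK m h st ξ ((g ∘ σ) ∘ sw m h hn ε) ((w ∘ σ) ∘ sw m h hn ε) i then
          (w ∘ σ) (sw m h hn ε i) else 0)
        = ∑ σ : Equiv.Perm (Fin n), ∑ st : Bool, ∑ i : Fin n,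
          (if accK m h st ξ (g ∘ σ) (w ∘ σ) i then w (σ i) else 0) := by
      intro ξ ε
      exact Equiv.sum_comp (Equiv.mulRight (swP m h hn ε))
        (fun σ : Equiv.Perm (Fin n) => ∑ st : Bool, ∑ i : Fin n,
          (if accK m h st ξ (g ∘ σ) (w ∘ σ) i then w (σ i) else 0))
    rw [Finset.sum_comm]
    have e2 : ∀ ξ : V → Bool, ∑ σ : Equiv.Perm (Fin n), ∑ ε : Fin n → Bool, ∑ st : Bool,
      ∑ i : Fin n,
        (if accK m h st ξ ((g ∘ σ) ∘ sw m h hn ε) ((w ∘ σ) ∘ sw m h hn ε) i then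
          (w ∘ σ) (sw m h hn ε i) else 0)
        = (Fintype.card (Fin n → Bool) : ℝ) * ∑ σ : Equiv.Perm (Fin n), ∑ st : Bool,
          ∑ i : Fin n, (if accK m h st ξ (g ∘ σ) (w ∘ σ) i then w (σ i) else 0) := by
      intro ξ
      rw [Finset.sum_comm, Finset.sum_congr rfl (fun ε _ => e1 ξ ε), Finset.sum_const,
        Finset.card_univ, nsmul_eq_mul]
    rw [Finset.sum_congr rfl (fun ξ _ => e2 ξ), ← Finset.mul_sum, Finset.sum_comm]
  rw [h3] at h2
  have hpos : (0 : ℝ) < Fintype.card (Fin n → Bool) := by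
    exact_mod_cast (Fintype.card_pos : 0 < Fintype.card (Fin n → Bool))
  have h4 : (Fintype.card (Fin n → Bool) : ℝ) * ((Fintype.card (V → Bool) : ℝ) *
        ∑ σ : Equiv.Perm (Fin n), ∑ j ∈ jSet m g I σ, w (σ j))
      ≤ (Fintype.card (Fin n → Bool) : ℝ) * (16 * ∑ σ : Equiv.Perm (Fin n), ∑ ξ : V → Bool,
        ∑ st : Bool, ∑ i : Fin n,
        (if accK m h st ξ (g ∘ σ) (w ∘ σ) i then w (σ i) else 0)) := by
    calc _ = (Fintype.card (V → Bool) : ℝ) * Fintype.card (Fin n → Bool) *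
        ∑ σ : Equiv.Perm (Fin n), ∑ j ∈ jSet m g I σ, w (σ j) := by ring
      _ ≤ _ := h2
      _ = _ := by ring
  exact le_of_mul_le_mul_left h4 hpos

omit [Nonempty V] in
theorem mem_cSet {g : Fin n → V × V} {I : Finset (Fin n)} {σ : Equiv.Perm (Fin n)} {i : Fin n} :
    i ∈ cSet g I σ ↔ σ i ∈ I ∧
      ¬ (qset (g ∘ σ) (Set.Iio i) (g (σ i))).card * 16 < Fintype.card (V → K4) := by
  unfold cSet
  rw [Finset.mem_filter]
  exact ⟨fun h => h.2, fun h => ⟨Finset.mem_univ _, h⟩⟩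

open Classical in
theorem mem_jSet {m : ℕ} {g : Fin n → V × V} {I : Finset (Fin n)} {σ : Equiv.Perm (Fin n)}
    {j : Fin n} : j ∈ jSet m g I σ ↔
      m ≤ j.val ∧ σ j ∈ I ∧ ∃ x y, Placed m (g ∘ σ) j x y := by
  unfold jSet
  rw [Finset.mem_filter]
  exact ⟨fun h => h.2, fun h => ⟨Finset.mem_univ _, h⟩⟩

omit [Fintype V] [Nonempty V] in
/-- an element of an independent set is not a loop -/
theorem not_loop {g : Fin n → V × V} {I : Finset (Fin n)} (hI : Ind g (↑I : Set (Fin n)))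
    {e : Fin n} (he : e ∈ I) : (g e).1 ≠ (g e).2 := by
  intro h
  have h0 : bd g (Pi.single e 1) = 0 := by rw [bd_single, inc_eq_zero_iff]; exact h
  have h1 := hI _ (SuppIn.single (by simpa using he) 1) h0
  have := congrFun h1 e
  simp at this

omit [Nonempty V] in
/-- the first position is always served by the first mode -/
theorem first_mem_cSet {g : Fin n → V × V} {I : Finset (Fin n)}
    (hI : Ind g (↑I : Set (Fin n))) (σ : Equiv.Perm (Fin n)) {i : Fin n} (hi : i.val = 0)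
    (hiI : σ i ∈ I) : i ∈ cSet g I σ := by
  rw [mem_cSet]
  refine ⟨hiI, fun hq => ?_⟩
  have hloop := not_loop hI hiI
  obtain ⟨c, hc, hb, _⟩ := place_of_q (g ∘ σ) (g ∘ σ) (Set.Iio i) (fun _ _ => Iff.rfl)
    (g (σ i)) hloop hq
  have hc0 : c = 0 := by
    funext e
    apply hc e
    intro (he : e < i)
    have := Fin.lt_def.1 he
    omega
  rw [hc0, map_zero] at hb
  exact hloop ((inc_eq_zero_iff _).1 hb.symm)

/-- the pairing: no element of an independent set is lost by both modes -/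
theorem pairing {m h : ℕ} (hn : m + 2 * h = n) (hm : 2 * h ≤ m) {g : Fin n → V × V}
    {I : Finset (Fin n)} (hI : Ind g (↑I : Set (Fin n))) (σ : Equiv.Perm (Fin n))
    {i j : Fin n} (hi : i.val < 2 * h) (hj : j.val = m + i.val) (hiI : σ i ∈ I) :
    i ∈ cSet g I σ ∨ j ∈ jSet m g I (σ * Equiv.swap i j) := by
  by_cases hc : i ∈ cSet g I σ
  · exact Or.inl hc
  right
  rw [mem_cSet] at hc
  have hq : (qset (g ∘ σ) (Set.Iio i) (g (σ i))).card * 16 < Fintype.card (V → K4) := by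
    by_contra h'
    exact hc ⟨hiI, h'⟩
  obtain ⟨τ, hτ⟩ : ∃ τ : Equiv.Perm (Fin n), τ = σ * Equiv.swap i j := ⟨_, rfl⟩
  rw [← hτ, mem_jSet]
  have hj' : τ j = σ i := by rw [hτ]; simp
  refine ⟨by omega, by rw [hj']; exact hiI, ?_⟩
  have hsub : (Set.Iio i : Set (Fin n)) ⊆ Sam n m := by
    intro k hk
    have := Fin.lt_def.1 (show k < i from hk)
    change k.val < m
    omega
  have hagree : ∀ e ∈ (Set.Iio i : Set (Fin n)), (g ∘ σ) e = (g ∘ τ) e := by
    intro e he
    have he' : e < i := he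
    have h1 : e ≠ i := ne_of_lt he'
    have h2 : e ≠ j := by
      intro h
      have := Fin.lt_def.1 he'
      rw [h, hj] at this
      omega
    rw [Function.comp_apply, Function.comp_apply, hτ, Equiv.Perm.mul_apply,
      Equiv.swap_apply_of_ne_of_ne h1 h2]
  have hcard := Finset.card_le_card (qset_anti hsub hagree (g (σ i)))
  have hq' : (qset (g ∘ τ) (Sam n m) (g (σ i))).card * 16 < Fintype.card (V → K4) :=
    lt_of_le_of_lt (Nat.mul_le_mul_right _ hcard) hq
  obtain ⟨c, h1, h2, x, y, hxy, h3⟩ := place_of_q (g ∘ τ)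
    (eta m (g ∘ τ)) (Sam n m) (eta_spec m _) (g (σ i)) (not_loop hI hiI) hq'
  refine ⟨x, y, hxy, c, h1, ?_, h3⟩
  rw [h2, Function.comp_apply, hj']

open Classical in
/-- the two modes together serve a quarter of every independent set -/
theorem served (hn0 : 0 < n) {m h : ℕ} (hh : h = n / 4) (hn : m + 2 * h = n)
    {g : Fin n → V × V} (w : Fin n → ℝ) (hw : ∀ e, 0 ≤ w e) {I : Finset (Fin n)}
    (hI : Ind g (↑I : Set (Fin n))) :
    (n.factorial : ℝ) * ∑ e ∈ I, w e
      ≤ 4 * (∑ σ : Equiv.Perm (Fin n), ∑ i ∈ cSet g I σ, w (σ i)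
        + ∑ σ : Equiv.Perm (Fin n), ∑ j ∈ jSet m g I σ, w (σ j)) := by
  have hwI : ∑ e ∈ I, w e = ∑ e, (if e ∈ I then w e else 0) := by simp
  have hJnn : 0 ≤ ∑ σ : Equiv.Perm (Fin n), ∑ j ∈ jSet m g I σ, w (σ j) :=
    Finset.sum_nonneg fun σ _ => Finset.sum_nonneg fun j _ => hw _
  by_cases h4 : n < 4
  · -- only the first position
    have h1 := sum_perm_apply (fun e => if e ∈ I then w e else 0) (⟨0, hn0⟩ : Fin n)
    have h2 : ∑ σ : Equiv.Perm (Fin n), (if σ ⟨0, hn0⟩ ∈ I then w (σ ⟨0, hn0⟩) else 0)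
        ≤ ∑ σ : Equiv.Perm (Fin n), ∑ i ∈ cSet g I σ, w (σ i) := by
      refine Finset.sum_le_sum fun σ _ => ?_
      split_ifs with hσ
      · exact Finset.single_le_sum (f := fun i => w (σ i)) (fun i _ => hw _)
          (first_mem_cSet hI σ rfl hσ)
      · exact Finset.sum_nonneg fun i _ => hw _
    have h3 : (n : ℝ) ≤ 4 := by exact_mod_cast h4.le
    have h5 : 0 ≤ ∑ σ : Equiv.Perm (Fin n),
        (if σ ⟨0, hn0⟩ ∈ I then w (σ ⟨0, hn0⟩) else 0) := by
      refine Finset.sum_nonneg fun σ _ => ?_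
      split_ifs
      · exact hw _
      · exact le_rfl
    rw [hwI, ← h1]
    nlinarith
  · push Not at h4
    have hm : 2 * h ≤ m := by omega
    have hpos : ∀ i : Fin (2 * h), i.val < n := fun i => by have := i.2; omega
    have hpos' : ∀ i : Fin (2 * h), m + i.val < n := fun i => by have := i.2; omega
    have key : ∀ i : Fin (2 * h),
        ∑ σ : Equiv.Perm (Fin n), (if σ ⟨i, hpos i⟩ ∈ I then w (σ ⟨i, hpos i⟩) else 0)
        ≤ ∑ σ : Equiv.Perm (Fin n),
            (if (⟨i, hpos i⟩ : Fin n) ∈ cSet g I σ then w (σ ⟨i, hpos i⟩) else 0)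
          + ∑ σ : Equiv.Perm (Fin n),
            (if (⟨m + i, hpos' i⟩ : Fin n) ∈ jSet m g I σ then w (σ ⟨m + i, hpos' i⟩)
              else 0) := by
      intro i
      rw [← Equiv.sum_comp (Equiv.mulRight (Equiv.swap (⟨i, hpos i⟩ : Fin n)
        ⟨m + i, hpos' i⟩)) (fun σ : Equiv.Perm (Fin n) =>
            (if (⟨m + i, hpos' i⟩ : Fin n) ∈ jSet m g I σ then w (σ ⟨m + i, hpos' i⟩)
              else 0)), ← Finset.sum_add_distrib]
      refine Finset.sum_le_sum fun σ _ => ?_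
      have hnn1 : (0 : ℝ) ≤
          (if (⟨i, hpos i⟩ : Fin n) ∈ cSet g I σ then w (σ ⟨i, hpos i⟩) else 0) := by
        split_ifs
        · exact hw _
        · exact le_rfl
      have hnn2 : (0 : ℝ) ≤ (if (⟨m + i, hpos' i⟩ : Fin n) ∈ jSet m g I
          ((Equiv.mulRight (Equiv.swap (⟨i, hpos i⟩ : Fin n) ⟨m + i, hpos' i⟩)) σ) then
          w (((Equiv.mulRight (Equiv.swap (⟨i, hpos i⟩ : Fin n) ⟨m + i, hpos' i⟩)) σ)
            ⟨m + i, hpos' i⟩) else 0) := by
        split_ifs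
        · exact hw _
        · exact le_rfl
      by_cases hσ : σ ⟨i, hpos i⟩ ∈ I
      · rw [if_pos hσ]
        rcases pairing hn hm hI σ (i := ⟨i, hpos i⟩) (j := ⟨m + i, hpos' i⟩) i.2 rfl hσ with
          hc | hj
        · rw [if_pos hc] at hnn1 ⊢
          linarith
        · have e1 : (Equiv.mulRight (Equiv.swap (⟨i, hpos i⟩ : Fin n) ⟨m + i, hpos' i⟩)) σ
              = σ * Equiv.swap (⟨i, hpos i⟩ : Fin n) ⟨m + i, hpos' i⟩ := rfl
          rw [e1, if_pos hj]
          have e2 : (σ * Equiv.swap (⟨i, hpos i⟩ : Fin n) ⟨m + i, hpos' i⟩) ⟨m + i, hpos' i⟩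
              = σ ⟨i, hpos i⟩ := by simp
          rw [e2]
          linarith
      · rw [if_neg hσ]
        linarith
    have hsum := Finset.sum_le_sum (fun i (_ : i ∈ (univ : Finset (Fin (2 * h)))) => key i)
    rw [Finset.sum_add_distrib] at hsum
    have hC : ∑ i : Fin (2 * h), ∑ σ : Equiv.Perm (Fin n),
            (if (⟨i, hpos i⟩ : Fin n) ∈ cSet g I σ then w (σ ⟨i, hpos i⟩) else 0)
        ≤ ∑ σ : Equiv.Perm (Fin n), ∑ i ∈ cSet g I σ, w (σ i) := by
      rw [Finset.sum_comm]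
      refine Finset.sum_le_sum fun σ _ => ?_
      have hinj : Function.Injective (fun i : Fin (2 * h) => (⟨i, hpos i⟩ : Fin n)) := by
        intro a b hab
        simpa [Fin.ext_iff] using hab
      calc ∑ i : Fin (2 * h), (if (⟨i, hpos i⟩ : Fin n) ∈ cSet g I σ then
              w (σ ⟨i, hpos i⟩) else 0)
          = ∑ i ∈ univ.image (fun i : Fin (2 * h) => (⟨i, hpos i⟩ : Fin n)),
              (if i ∈ cSet g I σ then w (σ i) else 0) := by
            rw [Finset.sum_image (fun a _ b _ hab => hinj hab)]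
        _ ≤ ∑ i, (if i ∈ cSet g I σ then w (σ i) else 0) := by
            apply Finset.sum_le_sum_of_subset_of_nonneg (Finset.subset_univ _)
            intro i _ _
            split_ifs
            · exact hw _
            · exact le_rfl
        _ = _ := by simp
    have hJ : ∑ i : Fin (2 * h), ∑ σ : Equiv.Perm (Fin n),
            (if (⟨m + i, hpos' i⟩ : Fin n) ∈ jSet m g I σ then w (σ ⟨m + i, hpos' i⟩) else 0)
        ≤ ∑ σ : Equiv.Perm (Fin n), ∑ j ∈ jSet m g I σ, w (σ j) := by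
      rw [Finset.sum_comm]
      refine Finset.sum_le_sum fun σ _ => ?_
      have hinj : Function.Injective (fun i : Fin (2 * h) => (⟨m + i, hpos' i⟩ : Fin n)) := by
        intro a b hab
        simpa [Fin.ext_iff] using hab
      calc ∑ i : Fin (2 * h), (if (⟨m + i, hpos' i⟩ : Fin n) ∈ jSet m g I σ then
              w (σ ⟨m + i, hpos' i⟩) else 0)
          = ∑ i ∈ univ.image (fun i : Fin (2 * h) => (⟨m + i, hpos' i⟩ : Fin n)),
              (if i ∈ jSet m g I σ then w (σ i) else 0) := by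
            rw [Finset.sum_image (fun a _ b _ hab => hinj hab)]
        _ ≤ ∑ i, (if i ∈ jSet m g I σ then w (σ i) else 0) := by
            apply Finset.sum_le_sum_of_subset_of_nonneg (Finset.subset_univ _)
            intro i _ _
            split_ifs
            · exact hw _
            · exact le_rfl
        _ = _ := by simp
    have hL : (n : ℝ) * ∑ i : Fin (2 * h), ∑ σ : Equiv.Perm (Fin n),
        (if σ ⟨i, hpos i⟩ ∈ I then w (σ ⟨i, hpos i⟩) else 0)
        = (2 * h : ℝ) * ((n.factorial : ℝ) * ∑ e ∈ I, w e) := by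
      rw [Finset.mul_sum, hwI]
      have : ∀ i : Fin (2 * h), (n : ℝ) * ∑ σ : Equiv.Perm (Fin n),
        (if σ ⟨i, hpos i⟩ ∈ I then w (σ ⟨i, hpos i⟩) else 0)
          = (n.factorial : ℝ) * ∑ e, (if e ∈ I then w e else 0) := fun i =>
        sum_perm_apply (fun e => if e ∈ I then w e else 0) ⟨i, hpos i⟩
      rw [Finset.sum_congr rfl (fun i _ => this i), Finset.sum_const, Finset.card_univ,
        Fintype.card_fin, nsmul_eq_mul]
      push_cast
      ring
    have hn8 : (n : ℝ) ≤ 4 * (2 * h) := by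
      have : n ≤ 4 * (2 * h) := by omega
      exact_mod_cast this
    have hnpos : (0 : ℝ) < n := by exact_mod_cast hn0
    have hWnn : 0 ≤ (n.factorial : ℝ) * ∑ e ∈ I, w e :=
      mul_nonneg (Nat.cast_nonneg _) (Finset.sum_nonneg fun e _ => hw e)
    have hfin : (n : ℝ) * ((n.factorial : ℝ) * ∑ e ∈ I, w e)
        ≤ n * (4 * (∑ σ : Equiv.Perm (Fin n), ∑ i ∈ cSet g I σ, w (σ i)
        + ∑ σ : Equiv.Perm (Fin n), ∑ j ∈ jSet m g I σ, w (σ j))) := by
      calc (n : ℝ) * ((n.factorial : ℝ) * ∑ e ∈ I, w e)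
          ≤ (4 * (2 * h)) * ((n.factorial : ℝ) * ∑ e ∈ I, w e) :=
            mul_le_mul_of_nonneg_right hn8 hWnn
        _ = 4 * (n * ∑ i : Fin (2 * h), ∑ σ : Equiv.Perm (Fin n),
              (if σ ⟨i, hpos i⟩ ∈ I then w (σ ⟨i, hpos i⟩) else 0)) := by
            rw [hL]; ring
        _ ≤ 4 * (n * (∑ σ : Equiv.Perm (Fin n), ∑ i ∈ cSet g I σ, w (σ i)
              + ∑ σ : Equiv.Perm (Fin n), ∑ j ∈ jSet m g I σ, w (σ j))) := by
            apply mul_le_mul_of_nonneg_left _ (by norm_num)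
            apply mul_le_mul_of_nonneg_left _ hnpos.le
            linarith
        _ = _ := by ring
    exact le_of_mul_le_mul_left hfin hnpos

end Avg

end Pool.Agent.GMS
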