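import Mathlib

/-!
# Graphs as maps to pairs of vertices: boundary, cycle space, independence over `ZMod 2`
-/

set_option autoImplicit false

namespace Pool.Agent.GMS

open Finset

section Chains

variable {E V : Type*} [Fintype E] [DecidableEq E] [DecidableEq V]

/-- incidence vector over `ZMod 2` of an edge with ends `p.1`, `p.2` -/
def inc (p : V × V) : V → ZMod 2 := Pi.single p.1 1 + Pi.single p.2 1

/-- the boundary map of the graph with edge set `E` and ends `g` -/
def bd (g : E → V × V) : (E → ZMod 2) →ₗ[ZMod 2] (V → ZMod 2) where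
  toFun c := ∑ e, c e • inc (g e)
  map_add' c d := by
    simp [add_smul, Finset.sum_add_distrib]
  map_smul' r c := by
    simp [Finset.smul_sum, mul_smul]

omit [DecidableEq E] in
theorem bd_apply (g : E → V × V) (c : E → ZMod 2) : bd g c = ∑ e, c e • inc (g e) := rfl

/-- the chain `c` is supported in `U` -/
def SuppIn (U : Set E) (c : E → ZMod 2) : Prop := ∀ e, e ∉ U → c e = 0

omit [Fintype E] [DecidableEq E] in
theorem SuppIn.mono {U U' : Set E} (h : U ⊆ U') {c : E → ZMod 2} (hc : SuppIn U c) :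
    SuppIn U' c := fun e he => hc e (fun h' => he (h h'))

omit [Fintype E] [DecidableEq E] in
theorem SuppIn.add {U : Set E} {c d : E → ZMod 2} (hc : SuppIn U c) (hd : SuppIn U d) :
    SuppIn U (c + d) := fun e he => by simp [hc e he, hd e he]

omit [Fintype E] in
theorem SuppIn.single {U : Set E} {e : E} (he : e ∈ U) (a : ZMod 2) :
    SuppIn U (Pi.single e a) := fun f hf => by
  have : f ≠ e := fun h => hf (h ▸ he)
  simp [Pi.single_eq_of_ne this]

/-- `U` is an independent set (a forest) of the graph `g` -/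
def Ind (g : E → V × V) (U : Set E) : Prop := ∀ c, SuppIn U c → bd g c = 0 → c = 0

omit [DecidableEq E] in
theorem Ind.mono {g : E → V × V} {U U' : Set E} (h : U ⊆ U') (hI : Ind g U') : Ind g U :=
  fun c hc h0 => hI c (hc.mono h) h0

theorem bd_single (g : E → V × V) (e : E) : bd g (Pi.single e 1) = inc (g e) := by
  rw [bd_apply, Finset.sum_eq_single e]
  · simp
  · intro b _ hb
    simp [Pi.single_eq_of_ne hb]
  · simp

omit [DecidableEq E] in
/-- the boundary only sees the ends on the support -/
theorem bd_congr {g g' : E → V × V} {c : E → ZMod 2} (h : ∀ e, c e ≠ 0 → g e = g' e) :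
    bd g c = bd g' c := by
  rw [bd_apply, bd_apply]
  refine Finset.sum_congr rfl fun e _ => ?_
  by_cases he : c e = 0
  · simp [he]
  · rw [h e he]

theorem z2 (a : ZMod 2) : a = 0 ∨ a = 1 := by
  revert a; decide

theorem z2_ne {a : ZMod 2} (h : a ≠ 0) : a = 1 := by
  rcases z2 a with h' | h'
  · exact absurd h' h
  · exact h'

theorem z2_add_self (a : ZMod 2) : a + a = 0 := by
  revert a; decide

theorem vadd_self {X : Type*} (c : X → ZMod 2) : c + c = 0 := by
  funext x; exact z2_add_self _

theorem vadd_eq_zero {X : Type*} {c d : X → ZMod 2} (h : c + d = 0) : c = d := by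
  have : c + d + d = d := by rw [h, zero_add]
  rwa [add_assoc, vadd_self, add_zero] at this

/-- the support of a chain as a finset -/
def sp (c : E → ZMod 2) : Finset E := univ.filter fun e => c e ≠ 0

omit [DecidableEq E] in
theorem mem_sp {c : E → ZMod 2} {e : E} : e ∈ sp c ↔ c e ≠ 0 := by simp [sp]

omit [DecidableEq E] in
theorem suppIn_sp (c : E → ZMod 2) : SuppIn (↑(sp c) : Set E) c := fun e he => by
  by_contra h
  exact he (by simpa [mem_sp] using h)

omit [DecidableEq E] in
theorem sp_subset_of_suppIn {U : Finset E} {c : E → ZMod 2} (h : SuppIn (↑U : Set E) c) :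
    sp c ⊆ U := fun e he => by
  by_contra h'
  exact (mem_sp.1 he) (h e (by simpa using h'))

omit [DecidableEq E] in
theorem eq_of_sp_eq {c d : E → ZMod 2} (h : sp c = sp d) : c = d := by
  funext e
  by_cases he : e ∈ sp c
  · have he' : e ∈ sp d := by rw [← h]; exact he
    have h1 : c e = 1 := z2_ne (mem_sp.1 he)
    have h2 : d e = 1 := z2_ne (mem_sp.1 he')
    rw [h1, h2]
  · have he' : e ∉ sp d := by rw [← h]; exact he
    have h1 : c e = 0 := by simpa [mem_sp] using he
    have h2 : d e = 0 := by simpa [mem_sp] using he'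
    rw [h1, h2]

omit [DecidableEq E] in
theorem sp_eq_empty {c : E → ZMod 2} : sp c = ∅ ↔ c = 0 := by
  constructor
  · intro h
    apply eq_of_sp_eq
    rw [h]; ext e; simp [mem_sp]
  · intro h; subst h; ext e; simp [mem_sp]

theorem sp_add_of_subset {c d : E → ZMod 2} (h : sp d ⊆ sp c) : sp (c + d) = sp c \ sp d := by
  ext e
  simp only [mem_sp, Finset.mem_sdiff, Pi.add_apply]
  constructor
  · intro h1
    by_cases hd : d e = 0
    · rw [hd, add_zero] at h1; exact ⟨h1, by simp [hd]⟩
    · have := mem_sp.1 (h (mem_sp.2 hd))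
      rw [z2_ne this, z2_ne hd] at h1
      exact absurd (by decide) h1
  · rintro ⟨h1, h2⟩
    have : d e = 0 := by simpa using h2
    rw [this, add_zero]; exact h1

omit [DecidableEq E] in
theorem bd_add (g : E → V × V) (c d : E → ZMod 2) : bd g (c + d) = bd g c + bd g d :=
  map_add _ _ _

/-- Two graphs on the same edges with the same independent sets inside `U` have the same cycles
inside `U`. -/
theorem cyc_of_ind {V' : Type*} [DecidableEq V'] {g : E → V × V} {g' : E → V' × V'} {U : Set E}
    (h : ∀ Z : Set E, Z ⊆ U → (Ind g Z ↔ Ind g' Z)) :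
    ∀ c, SuppIn U c → bd g c = 0 → bd g' c = 0 := by
  suffices H : ∀ (N : ℕ) (c : E → ZMod 2), (sp c).card ≤ N → SuppIn U c → bd g c = 0 →
      bd g' c = 0 by
    intro c hc h0
    exact H _ c le_rfl hc h0
  intro N
  induction N with
  | zero =>
    intro c hcard _ _
    have : sp c = ∅ := Finset.card_eq_zero.1 (Nat.le_zero.1 hcard)
    rw [sp_eq_empty.1 this, map_zero]
  | succ N ih =>
    intro c hcard hc h0
    by_cases hc0 : c = 0
    · rw [hc0, map_zero]
    have hspU : (↑(sp c) : Set E) ⊆ U := by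
      intro e he
      by_contra h'
      exact (mem_sp.1 (by simpa using he)) (hc e h')
    -- a minimal cycle inside the support
    obtain ⟨c1, ⟨hc1ne, hc1s, hc1b⟩, hmin⟩ : ∃ c1 : E → ZMod 2,
        (c1 ≠ 0 ∧ sp c1 ⊆ sp c ∧ bd g c1 = 0) ∧
        ∀ d : E → ZMod 2, d ≠ 0 → sp d ⊆ sp c → bd g d = 0 → (sp c1).card ≤ (sp d).card := by
      classical
      obtain ⟨c1, h1, h2⟩ := exists_min_image (univ.filter fun c1 : E → ZMod 2 =>
        c1 ≠ 0 ∧ sp c1 ⊆ sp c ∧ bd g c1 = 0) (fun c1 => (sp c1).card)
        ⟨c, by simp [hc0, h0]⟩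
      refine ⟨c1, by simpa only [Finset.mem_filter, Finset.mem_univ, true_and] using h1, ?_⟩
      intro d hd1 hd2 hd3
      exact h2 d (by simp only [Finset.mem_filter, Finset.mem_univ, true_and]; exact ⟨hd1, hd2, hd3⟩)
    have hnotg : ¬ Ind g (↑(sp c1) : Set E) := fun hI => hc1ne (hI c1 (suppIn_sp c1) hc1b)
    have hsub1 : (↑(sp c1) : Set E) ⊆ U := (Finset.coe_subset.2 hc1s).trans hspU
    have hnotg' : ¬ Ind g' (↑(sp c1) : Set E) := fun hI => hnotg ((h _ hsub1).2 hI)
    unfold Ind at hnotg'
    push Not at hnotg'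
    obtain ⟨c2, hc2s, hc2b, hc2ne⟩ := hnotg'
    have hs21 : sp c2 ⊆ sp c1 := sp_subset_of_suppIn hc2s
    have hnot2' : ¬ Ind g' (↑(sp c2) : Set E) := fun hI => hc2ne (hI c2 (suppIn_sp c2) hc2b)
    have hsub2 : (↑(sp c2) : Set E) ⊆ U := (Finset.coe_subset.2 hs21).trans hsub1
    have hnot2 : ¬ Ind g (↑(sp c2) : Set E) := fun hI => hnot2' ((h _ hsub2).1 hI)
    unfold Ind at hnot2
    push Not at hnot2
    obtain ⟨c3, hc3s, hc3b, hc3ne⟩ := hnot2
    have hs32 : sp c3 ⊆ sp c2 := sp_subset_of_suppIn hc3s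
    have hle : (sp c1).card ≤ (sp c3).card :=
      hmin c3 hc3ne ((hs32.trans hs21).trans hc1s) hc3b
    have h12 : sp c2 = sp c1 :=
      Finset.eq_of_subset_of_card_le hs21 (hle.trans (Finset.card_le_card hs32))
    have hc21 : c2 = c1 := eq_of_sp_eq h12
    subst hc21
    have hrest : bd g (c + c2) = 0 := by rw [bd_add, h0, hc1b, add_zero]
    have hcard' : (sp (c + c2)).card ≤ N := by
      rw [sp_add_of_subset hc1s, Finset.card_sdiff_of_subset hc1s]
      have : 0 < (sp c2).card := Finset.card_pos.2 (Finset.nonempty_iff_ne_empty.2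
        (fun h' => hc1ne (sp_eq_empty.1 h')))
      omega
    have hsupp' : SuppIn U (c + c2) := hc.add ((suppIn_sp c2).mono hsub1)
    have := ih _ hcard' hsupp' hrest
    rw [bd_add, hc2b, add_zero] at this
    exact this

/-- the total sum of a boundary is zero -/
theorem sum_inc [Fintype V] (p : V × V) : ∑ z, inc p z = 0 := by
  simp only [inc, Pi.add_apply, Finset.sum_add_distrib]
  rw [Finset.sum_pi_single', Finset.sum_pi_single']
  simp [z2_add_self]

omit [DecidableEq E] in
theorem sum_bd [Fintype V] (g : E → V × V) (c : E → ZMod 2) : ∑ z, bd g c z = 0 := by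
  rw [bd_apply]
  simp only [Finset.sum_apply, Pi.smul_apply]
  rw [Finset.sum_comm]
  refine Finset.sum_eq_zero fun e _ => ?_
  rw [← Finset.smul_sum, sum_inc, smul_zero]

theorem inc_eq_zero_iff (p : V × V) : inc p = 0 ↔ p.1 = p.2 := by
  constructor
  · intro h
    by_contra hne
    have := congrFun h p.1
    simp [inc, Pi.single_eq_of_ne hne] at this
  · intro h
    rw [inc, h, vadd_self]

theorem inc_comm (x y : V) : inc (x, y) = inc (y, x) := by
  simp [inc, add_comm]

theorem inc_apply_ne {x y z : V} (h1 : z ≠ x) (h2 : z ≠ y) : inc (x, y) z = 0 := by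
  simp [inc, Pi.single_eq_of_ne h1, Pi.single_eq_of_ne h2]

theorem inc_apply_left {x y : V} (h : x ≠ y) : inc (x, y) x = 1 := by
  simp [inc, Pi.single_eq_of_ne h]

theorem inc_apply_right {x y : V} (h : x ≠ y) : inc (x, y) y = 1 := by
  simp [inc, Pi.single_eq_of_ne h.symm]

end Chains

end Pool.Agent.GMS
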