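import Pool.Agent.Work.MP_3bf421_lc.Place

/-!
# Random colourings: few good colourings force a place
-/

set_option autoImplicit false

namespace Pool.Agent.GMS

open Finset

/-- four colours -/
abbrev K4 : Type := ZMod 2 × ZMod 2

section Col

variable {E V W : Type*} [Fintype E] [DecidableEq E] [Fintype V] [DecidableEq V]
  [Fintype W] [DecidableEq W]

/-- the colourings in which `p` is monochromatic and not spanned by the monochromatic
edges of `R` -/
noncomputable def qset (γ : E → V × V) (R : Set E) (p : V × V) : Finset (V → K4) := by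
  classical
  exact univ.filter fun χ => χ p.1 = χ p.2 ∧
    ∀ c, SuppIn R c → (∀ e, c e ≠ 0 → χ (γ e).1 = χ (γ e).2) → bd γ c ≠ inc p

theorem mem_qset {γ : E → V × V} {R : Set E} {p : V × V} {χ : V → K4} :
    χ ∈ qset γ R p ↔ χ p.1 = χ p.2 ∧
      ∀ c, SuppIn R c → (∀ e, c e ≠ 0 → χ (γ e).1 = χ (γ e).2) → bd γ c ≠ inc p := by
  simp [qset]

theorem qset_anti {γ γ' : E → V × V} {R R' : Set E} (hR : R ⊆ R') (hγ : ∀ e ∈ R, γ e = γ' e)
    (p : V × V) : qset γ' R' p ⊆ qset γ R p := by
  intro χ hχ
  rw [mem_qset] at hχ ⊢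
  refine ⟨hχ.1, fun c hc hm hb => ?_⟩
  have hne : ∀ e, c e ≠ 0 → γ e = γ' e := by
    intro e he
    apply hγ
    by_contra h
    exact he (hc e h)
  refine hχ.2 c (hc.mono hR) (fun e he => ?_) ?_
  · rw [← hne e he]; exact hm e he
  · rw [← bd_congr hne]; exact hb

theorem exists_colouring (γ : E → V × V) (R : Set E) {u v : V} (huv : u ≠ v)
    (hq : (qset γ R (u, v)).card * 16 < Fintype.card (V → K4)) :
    ∃ ξ : V → K4, ∀ a : K4, ∃ c, SuppIn R c ∧ bd γ c = inc (u, v) ∧
      ∀ f, c f ≠ 0 → ∀ z, (z = (γ f).1 ∨ z = (γ f).2) → z = u ∨ z = v ∨ ξ z = a := by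
  classical
  let up : (V → K4) → K4 → (V → K4) := fun ξ a => Function.update (Function.update ξ u a) v a
  have hup_u : ∀ ξ a, up ξ a u = a := by
    intro ξ a
    simp only [up, Function.update_of_ne huv, Function.update_self]
  have hup_v : ∀ ξ a, up ξ a v = a := by
    intro ξ a
    simp only [up, Function.update_self]
  have hup_o : ∀ ξ a z, z ≠ u → z ≠ v → up ξ a z = ξ z := by
    intro ξ a z h1 h2
    simp only [up, Function.update_of_ne h1, Function.update_of_ne h2]
  have hex : ∃ ξ : V → K4, ∀ a, up ξ a ∉ qset γ R (u, v) := by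
    by_contra hcon
    push Not at hcon
    choose A hA using hcon
    let F : (V → K4) → {χ // χ ∈ qset γ R (u, v)} × (K4 × K4) := fun χ =>
      (⟨up χ (A χ), hA χ⟩, (χ u, χ v))
    have hF : Function.Injective F := by
      intro χ χ' h
      simp only [F, Prod.mk.injEq, Subtype.mk.injEq] at h
      obtain ⟨h1, h2, h3⟩ := h
      funext z
      by_cases hzu : z = u
      · rw [hzu]; exact h2
      by_cases hzv : z = v
      · rw [hzv]; exact h3
      have := congrFun h1 z
      rwa [hup_o _ _ _ hzu hzv, hup_o _ _ _ hzu hzv] at this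
    have hcard := Fintype.card_le_of_injective F hF
    rw [Fintype.card_prod, Fintype.card_coe] at hcard
    have h16 : Fintype.card (K4 × K4) = 16 := by decide
    rw [h16] at hcard
    omega
  obtain ⟨ξ, hξ⟩ := hex
  refine ⟨ξ, fun a => ?_⟩
  have h := hξ a
  rw [mem_qset] at h
  push Not at h
  obtain ⟨c, hcR, hmono, hbd⟩ := h ((hup_u ξ a).trans (hup_v ξ a).symm)
  set χ := up ξ a with hχ
  refine ⟨fun f => if χ (γ f).1 = a then c f else 0, ?_, ?_, ?_⟩
  · intro f hf
    simp only [hcR f hf, ite_self]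
  · rw [← hbd]
    funext z
    rw [bd_apply, bd_apply, Finset.sum_apply, Finset.sum_apply]
    by_cases hz : χ z = a
    · refine Finset.sum_congr rfl fun f _ => ?_
      by_cases hc : c f = 0
      · simp [hc]
      by_cases hfa : χ (γ f).1 = a
      · simp [hfa]
      · have h1 : z ≠ (γ f).1 := fun h => hfa (h ▸ hz)
        have h2 : z ≠ (γ f).2 := fun h => hfa ((hmono f hc).trans (h ▸ hz))
        have : inc (γ f) z = 0 := inc_apply_ne h1 h2
        simp [this]
    · have hzu : z ≠ u := fun h => hz (h ▸ hup_u ξ a)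
      have hzv : z ≠ v := fun h => hz (h ▸ hup_v ξ a)
      have hr : ∑ e, (c e • inc (γ e)) z = 0 := by
        have := congrFun hbd z
        rw [bd_apply, Finset.sum_apply] at this
        rw [this, inc_apply_ne hzu hzv]
      rw [hr]
      refine Finset.sum_eq_zero fun f _ => ?_
      by_cases hc : c f = 0
      · simp [hc]
      by_cases hfa : χ (γ f).1 = a
      · have h1 : z ≠ (γ f).1 := fun h => hz (h ▸ hfa)
        have h2 : z ≠ (γ f).2 := fun h => hz (by rw [h, ← hmono f hc]; exact hfa)
        have : inc (γ f) z = 0 := inc_apply_ne h1 h2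
        simp [this]
      · simp [hfa]
  · intro f hf z hz
    by_cases hfa : χ (γ f).1 = a
    · simp only [hfa, if_true] at hf
      have hza : χ z = a := by
        rcases hz with h | h
        · rw [h]; exact hfa
        · rw [h, ← hmono f hf]; exact hfa
      by_cases hzu : z = u
      · exact Or.inl hzu
      by_cases hzv : z = v
      · exact Or.inr (Or.inl hzv)
      · right; right
        rw [← hup_o ξ a z hzu hzv]; exact hza
    · simp [hfa] at hf

/-- If few colourings are good for `p` relative to `S`, then `p` has a place in every graph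
realising `S`. -/
theorem place_of_q (γ : E → V × V) (η : E → W × W) (S : Set E)
    (hcyc : ∀ c, SuppIn S c → (bd γ c = 0 ↔ bd η c = 0)) (p : V × V) (hp : p.1 ≠ p.2)
    (hq : (qset γ S p).card * 16 < Fintype.card (V → K4)) :
    ∃ c, SuppIn S c ∧ bd γ c = inc p ∧ ∃ x y : W, x ≠ y ∧ bd η c = inc (x, y) := by
  obtain ⟨ξ, hξ⟩ := exists_colouring γ S (u := p.1) (v := p.2) hp hq
  exact place_core γ η S hcyc hp ξ ![(0, 0), (0, 1), (1, 0)] (by decide) (fun i => hξ _)

end Col

section ModeC

variable {n : ℕ} {V : Type*} [Fintype V] [DecidableEq V]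

/-- `k` is not spanned by the earlier elements -/
def Bas (γ : Fin n → V × V) (k : Fin n) : Prop :=
  ∀ c, SuppIn (Set.Iio k) c → bd γ c ≠ inc (γ k)

/-- `j` is monochromatic for the colours `b` on the greedy basis -/
def Mono (b : Fin n → K4) (γ : Fin n → V × V) (j : Fin n) : Prop :=
  ∃ c, SuppIn {k | k ≤ j ∧ Bas γ k} c ∧ bd γ c = inc (γ j) ∧ ∑ k, c k • b k = 0

/-- the acceptance rule of the first mode -/
def accC (b : Fin n → K4) (γ : Fin n → V × V) (i : Fin n) : Prop :=
  Mono b γ i ∧ ∀ c, SuppIn (Set.Iio i) c → (∀ k, c k ≠ 0 → Mono b γ k) → bd γ c ≠ inc (γ i)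

theorem ev_bd (χ : V → K4) (γ : Fin n → V × V) (c : Fin n → ZMod 2) :
    ∑ k, c k • (χ (γ k).1 + χ (γ k).2) = ∑ z, bd γ c z • χ z := by
  have h1 : ∀ p : V × V, ∑ z, inc p z • χ z = χ p.1 + χ p.2 := by
    intro p
    simp only [inc, Pi.add_apply, add_smul, Finset.sum_add_distrib, Pi.single_apply, ite_smul,
      one_smul, zero_smul, Finset.sum_ite_eq', Finset.mem_univ, if_true]
  simp only [bd_apply, Finset.sum_apply, Finset.sum_smul, Pi.smul_apply, smul_eq_mul, mul_smul]
  rw [Finset.sum_comm]
  refine Finset.sum_congr rfl fun k _ => ?_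
  rw [← h1 (γ k), Finset.smul_sum]

omit [Fintype V] in
theorem exists_basis_rep (γ : Fin n → V × V) (j : Fin n) :
    ∃ c, SuppIn {k | k ≤ j ∧ Bas γ k} c ∧ bd γ c = inc (γ j) := by
  classical
  induction j using WellFoundedLT.induction with
  | ind j ih =>
    by_cases hj : Bas γ j
    · exact ⟨Pi.single j 1, SuppIn.single (show j ∈ {k | k ≤ j ∧ Bas γ k} from ⟨le_rfl, hj⟩) 1,
        bd_single γ j⟩
    · unfold Bas at hj
      push Not at hj
      obtain ⟨c, hc, hb⟩ := hj
      choose! d hd1 hd2 using ih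
      refine ⟨∑ k, c k • d k, ?_, ?_⟩
      · intro e he
        rw [Finset.sum_apply]
        refine Finset.sum_eq_zero fun k _ => ?_
        by_cases hk : c k = 0
        · simp [hk]
        · have hkj : k < j := by
            by_contra h'
            exact hk (hc k h')
          have : d k e = 0 := hd1 k hkj e (fun h' => he ⟨h'.1.trans hkj.le, h'.2⟩)
          simp [this]
      · rw [map_sum, ← hb, bd_apply]
        refine Finset.sum_congr rfl fun k _ => ?_
        rw [map_smul]
        by_cases hk : c k = 0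
        · simp [hk]
        · have hkj : k < j := by
            by_contra h'
            exact hk (hc k h')
          rw [hd2 k hkj]

omit [Fintype V] in
/-- removing the last element of the support -/
theorem last_of_cycle (γ : Fin n → V × V) {c : Fin n → ZMod 2} (hc : c ≠ 0) (h0 : bd γ c = 0) :
    ∃ i, c i ≠ 0 ∧ ∃ d, (∀ k, d k ≠ 0 → c k ≠ 0) ∧ SuppIn (Set.Iio i) d ∧ bd γ d = inc (γ i) := by
  have hne : (sp c).Nonempty := Finset.nonempty_iff_ne_empty.2 (fun h => hc (sp_eq_empty.1 h))
  set i := (sp c).max' hne with hi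
  have hic : c i ≠ 0 := mem_sp.1 (Finset.max'_mem _ hne)
  refine ⟨i, hic, c + Pi.single i 1, ?_, ?_, ?_⟩
  · intro k hk hck
    apply hk
    by_cases hki : k = i
    · rw [hki] at hck; exact absurd hck hic
    · simp [hck, Pi.single_eq_of_ne hki]
  · intro k hk
    have hk' : i ≤ k := not_lt.1 hk
    rcases eq_or_lt_of_le hk' with h | h
    · rw [← h, Pi.add_apply, Pi.single_eq_same, z2_ne hic]; decide
    · have : c k = 0 := by
        by_contra h'
        have := Finset.le_max' (sp c) k (mem_sp.2 h')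
        exact absurd (this.trans_lt h) (lt_irrefl _)
      simp [this, Pi.single_eq_of_ne (ne_of_gt h)]
  · rw [bd_add, h0, zero_add, bd_single]

omit [Fintype V] in
theorem ind_bas (γ : Fin n → V × V) : Ind γ {k | Bas γ k} := by
  intro c hc h0
  by_contra hne
  obtain ⟨i, hi, d, _, hd2, hd3⟩ := last_of_cycle γ hne h0
  have hB : Bas γ i := by
    by_contra h'
    exact hi (hc i h')
  exact hB d hd2 hd3

omit [Fintype V] in
theorem ind_accC (b : Fin n → K4) (γ : Fin n → V × V) : Ind γ {i | accC b γ i} := by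
  intro c hc h0
  by_contra hne
  obtain ⟨i, hi, d, hd1, hd2, hd3⟩ := last_of_cycle γ hne h0
  have hA : ∀ k, c k ≠ 0 → accC b γ k := by
    intro k hk
    by_contra h'
    exact hk (hc k h')
  exact (hA i hi).2 d hd2 (fun k hk => (hA k (hd1 k hk)).1) hd3

omit [Fintype V] in
/-- any colours on the greedy basis come from a colouring of the vertices -/
theorem exists_chi (γ : Fin n → V × V) (b : Fin n → K4) :
    ∃ χ : V → K4, ∀ k, Bas γ k → χ (γ k).1 + χ (γ k).2 = b k := by
  classical
  have hli : LinearIndependent (ZMod 2) (fun k : {k // Bas γ k} => inc (γ k.1)) := by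
    rw [Fintype.linearIndependent_iff]
    intro g hg k
    let c : Fin n → ZMod 2 := fun e => if h : Bas γ e then g ⟨e, h⟩ else 0
    have hc : SuppIn {k | Bas γ k} c := by
      intro e he
      have : ¬ Bas γ e := he
      simp [c, this]
    have hb : bd γ c = 0 := by
      rw [← hg, bd_apply]
      have h1 : ∑ e, c e • inc (γ e) = ∑ e ∈ univ.filter (fun e => Bas γ e), c e • inc (γ e) := by
        symm
        apply Finset.sum_subset (Finset.subset_univ _)
        intro e _ he
        have : ¬ Bas γ e := by simpa using he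
        simp [c, this]
      rw [h1, Finset.sum_subtype (p := fun e => Bas γ e) (univ.filter (fun e => Bas γ e))
        (by simp)]
      refine Finset.sum_congr rfl fun i _ => ?_
      have : c i.1 = g i := by simp [c, i.2]
      rw [this]
    have := congrFun (ind_bas γ c hc hb) k.1
    simpa [c, k.2] using this
  obtain ⟨L, hL⟩ := LinearMap.exists_extend
    ((Module.Basis.span hli).constr (ZMod 2) (fun k : {k // Bas γ k} => b k.1))
  refine ⟨fun z => L (Pi.single z 1), fun k hk => ?_⟩
  have h1 : L (Pi.single (γ k).1 1) + L (Pi.single (γ k).2 1) = L (inc (γ k)) := by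
    rw [inc, map_add]
  rw [h1]
  have h2 := LinearMap.congr_fun hL ((Module.Basis.span hli) ⟨k, hk⟩)
  rw [Module.Basis.constr_basis] at h2
  rw [← h2]
  simp [Module.Basis.span_apply]

omit [Fintype V] in
theorem Mono_congr {b b' : Fin n → K4} {γ : Fin n → V × V} (h : ∀ k, Bas γ k → b k = b' k)
    (j : Fin n) : Mono b γ j ↔ Mono b' γ j := by
  have key : ∀ c : Fin n → ZMod 2, SuppIn {k | k ≤ j ∧ Bas γ k} c →
      ∑ k, c k • b k = ∑ k, c k • b' k := by
    intro c hc
    refine Finset.sum_congr rfl fun k _ => ?_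
    by_cases hk : c k = 0
    · simp [hk]
    · have : Bas γ k := by
        by_contra h'
        exact hk (hc k (fun h'' => h' h''.2))
      rw [h k this]
  constructor
  · rintro ⟨c, h1, h2, h3⟩
    exact ⟨c, h1, h2, by rw [← key c h1]; exact h3⟩
  · rintro ⟨c, h1, h2, h3⟩
    exact ⟨c, h1, h2, by rw [key c h1]; exact h3⟩

theorem Mono_iff {b : Fin n → K4} {γ : Fin n → V × V} {χ : V → K4}
    (h : ∀ k, Bas γ k → χ (γ k).1 + χ (γ k).2 = b k) (j : Fin n) :
    Mono b γ j ↔ χ (γ j).1 = χ (γ j).2 := by
  rw [Mono_congr (b' := fun k => χ (γ k).1 + χ (γ k).2) (fun k hk => (h k hk).symm)]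
  have key : ∀ c : Fin n → ZMod 2, bd γ c = inc (γ j) →
      ∑ k, c k • (χ (γ k).1 + χ (γ k).2) = χ (γ j).1 + χ (γ j).2 := by
    intro c hc
    have h1 := ev_bd χ γ (Pi.single j 1)
    rw [bd_single] at h1
    rw [ev_bd, hc, ← h1, Finset.sum_eq_single j]
    · simp
    · intro k _ hk
      simp [Pi.single_eq_of_ne hk]
    · simp
  have hz : ∀ x y : K4, x + y = 0 ↔ x = y := by decide
  constructor
  · rintro ⟨c, _, h2, h3⟩
    rw [key c h2] at h3
    exact (hz _ _).1 h3
  · intro hj
    obtain ⟨c, h1, h2⟩ := exists_basis_rep γ j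
    exact ⟨c, h1, h2, by rw [key c h2]; exact (hz _ _).2 hj⟩

omit [Fintype V] in
theorem accC_congr {b b' : Fin n → K4} {γ : Fin n → V × V} (h : ∀ k, Bas γ k → b k = b' k)
    (i : Fin n) : accC b γ i ↔ accC b' γ i := by
  unfold accC
  simp only [Mono_congr h]

theorem accC_iff {b : Fin n → K4} {γ : Fin n → V × V} {χ : V → K4}
    (h : ∀ k, Bas γ k → χ (γ k).1 + χ (γ k).2 = b k) (i : Fin n) :
    accC b γ i ↔ χ ∈ qset γ (Set.Iio i) (γ i) := by
  unfold accC
  rw [mem_qset]
  simp only [Mono_iff h]

open Classical in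
/-- The accepting colour vectors and the good colourings have the same density. -/
theorem card_accC (γ : Fin n → V × V) (i : Fin n) :
    (univ.filter fun b : Fin n → K4 => accC b γ i).card * Fintype.card (V → K4)
      = (qset γ (Set.Iio i) (γ i)).card * Fintype.card (Fin n → K4) := by
  let B : (V → K4) → (Fin n → K4) := fun χ k => χ (γ k).1 + χ (γ k).2
  have h1 : ∑ χ : V → K4, ∑ b : Fin n → K4, (if accC (b + B χ) γ i then 1 else 0)
      = (univ.filter fun b : Fin n → K4 => accC b γ i).card * Fintype.card (V → K4) := by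
    have : ∀ χ : V → K4, ∑ b : Fin n → K4, (if accC (b + B χ) γ i then 1 else 0)
        = (univ.filter fun b : Fin n → K4 => accC b γ i).card := by
      intro χ
      rw [Finset.card_filter]
      exact Equiv.sum_comp (Equiv.addRight (B χ)) (fun b => if accC b γ i then 1 else 0)
    rw [Finset.sum_congr rfl (fun χ _ => this χ), Finset.sum_const, smul_eq_mul, mul_comm,
      Finset.card_univ]
  have h2 : ∑ b : Fin n → K4, ∑ χ : V → K4, (if accC (b + B χ) γ i then 1 else 0)
      = (qset γ (Set.Iio i) (γ i)).card * Fintype.card (Fin n → K4) := by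
    have : ∀ b : Fin n → K4, ∑ χ : V → K4, (if accC (b + B χ) γ i then 1 else 0)
        = (qset γ (Set.Iio i) (γ i)).card := by
      intro b
      obtain ⟨χb, hχb⟩ := exists_chi γ b
      have h3 : ∀ χ : V → K4, (if accC (b + B χ) γ i then 1 else 0)
          = (if χ + χb ∈ qset γ (Set.Iio i) (γ i) then 1 else 0) := by
        intro χ
        have : accC (b + B χ) γ i ↔ χ + χb ∈ qset γ (Set.Iio i) (γ i) := by
          apply accC_iff
          intro k hk
          simp only [Pi.add_apply, B]
          rw [← hχb k hk]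
          abel
        simp only [this]
      rw [Finset.sum_congr rfl (fun χ _ => h3 χ)]
      have h4 : ∀ f : (V → K4) → ℕ, ∑ χ, f (χ + χb) = ∑ χ, f χ := fun f =>
        Equiv.sum_comp (Equiv.addRight χb) f
      have h5 : ∑ χ : V → K4, (if χ ∈ qset γ (Set.Iio i) (γ i) then 1 else 0)
          = (qset γ (Set.Iio i) (γ i)).card := by simp
      rw [← h5]
      convert h4 (fun χ => if χ ∈ qset γ (Set.Iio i) (γ i) then 1 else 0) using 1
    rw [Finset.sum_congr rfl (fun χ _ => this χ), Finset.sum_const, smul_eq_mul, mul_comm,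
      Finset.card_univ]
  rw [← h1, ← h2, Finset.sum_comm]

open Classical in
theorem accC_many (γ : Fin n → V × V) (i : Fin n)
    (hq : ¬ (qset γ (Set.Iio i) (γ i)).card * 16 < Fintype.card (V → K4)) :
    Fintype.card (Fin n → K4) ≤ 16 * (univ.filter fun b : Fin n → K4 => accC b γ i).card := by
  have h := card_accC γ i
  have hpos : 0 < Fintype.card (V → K4) := Fintype.card_pos
  rw [not_lt] at hq
  have h2 : Fintype.card (V → K4) * Fintype.card (Fin n → K4)
      ≤ Fintype.card (V → K4) *
        (16 * (univ.filter fun b : Fin n → K4 => accC b γ i).card) := by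
    calc Fintype.card (V → K4) * Fintype.card (Fin n → K4)
        ≤ ((qset γ (Set.Iio i) (γ i)).card * 16) * Fintype.card (Fin n → K4) :=
          Nat.mul_le_mul_right _ hq
      _ = 16 * ((qset γ (Set.Iio i) (γ i)).card * Fintype.card (Fin n → K4)) := by ring
      _ = 16 * ((univ.filter fun b : Fin n → K4 => accC b γ i).card *
            Fintype.card (V → K4)) := by rw [h]
      _ = _ := by ring
  exact Nat.le_of_mul_le_mul_left h2 hpos

/-! ### what the rule sees -/

/-- the two graphs have the same cycles among the elements `≤ i` -/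
def Cyc (γ γ' : Fin n → V × V) (i : Fin n) : Prop :=
  ∀ c, SuppIn (Set.Iic i) c → (bd γ c = 0 ↔ bd γ' c = 0)

omit [Fintype V] in
theorem Cyc.mono {γ γ' : Fin n → V × V} {i j : Fin n} (h : Cyc γ γ' i) (hji : j ≤ i) :
    Cyc γ γ' j := fun c hc => h c (hc.mono (Set.Iic_subset_Iic.2 hji))

omit [Fintype V] in
theorem Cyc.bd_eq {γ γ' : Fin n → V × V} {i : Fin n} (h : Cyc γ γ' i) {j : Fin n} (hj : j ≤ i)
    {c : Fin n → ZMod 2} (hc : SuppIn (Set.Iic i) c) :
    bd γ c = inc (γ j) ↔ bd γ' c = inc (γ' j) := by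
  have hs : SuppIn (Set.Iic i) (c + Pi.single j 1) :=
    hc.add (SuppIn.single (show j ∈ Set.Iic i from hj) 1)
  have h1 := h _ hs
  rw [bd_add, bd_add, bd_single, bd_single] at h1
  constructor
  · intro h2
    rw [h2, vadd_self] at h1
    exact vadd_eq_zero (h1.1 rfl)
  · intro h2
    rw [h2, vadd_self] at h1
    exact vadd_eq_zero (h1.2 rfl)

omit [Fintype V] in
theorem Cyc.bas {γ γ' : Fin n → V × V} {i : Fin n} (h : Cyc γ γ' i) {k : Fin n} (hk : k ≤ i) :
    Bas γ k ↔ Bas γ' k := by
  unfold Bas
  refine forall_congr' fun c => ?_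
  refine imp_congr_right fun hc => not_congr ?_
  exact h.bd_eq hk (hc.mono (fun x hx => (le_of_lt hx).trans hk))

omit [Fintype V] in
theorem Cyc.Mono_iff {γ γ' : Fin n → V × V} {i : Fin n} (h : Cyc γ γ' i) (b : Fin n → K4)
    {j : Fin n} (hj : j ≤ i) : Mono b γ j ↔ Mono b γ' j := by
  unfold Mono
  refine exists_congr fun c => ?_
  have hset : {k | k ≤ j ∧ Bas γ k} = {k | k ≤ j ∧ Bas γ' k} := by
    ext k
    constructor
    · rintro ⟨h1, h2⟩; exact ⟨h1, (h.bas (h1.trans hj)).1 h2⟩
    · rintro ⟨h1, h2⟩; exact ⟨h1, (h.bas (h1.trans hj)).2 h2⟩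
  rw [hset]
  refine and_congr_right fun hc => ?_
  rw [h.bd_eq hj (hc.mono (fun x hx => hx.1.trans hj))]

omit [Fintype V] in
theorem Cyc.accC_iff {γ γ' : Fin n → V × V} {i : Fin n} (h : Cyc γ γ' i) (b : Fin n → K4) :
    accC b γ i ↔ accC b γ' i := by
  unfold accC
  rw [h.Mono_iff b le_rfl]
  refine and_congr_right fun _ => ?_
  refine forall_congr' fun c => ?_
  refine imp_congr_right fun hc => ?_
  have h1 : (∀ k, c k ≠ 0 → Mono b γ k) ↔ (∀ k, c k ≠ 0 → Mono b γ' k) := by
    refine forall_congr' fun k => imp_congr_right fun hk => ?_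
    have : k < i := by
      by_contra h'
      exact hk (hc k h')
    exact h.Mono_iff b this.le
  rw [h1]
  refine imp_congr_right fun _ => not_congr ?_
  exact h.bd_eq le_rfl (hc.mono (fun x (hx : x < i) => le_of_lt hx))

end ModeC

end Pool.Agent.GMS
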