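import Pool.Agent.Work.MP_3bf421_lc.Colour

/-!
# The second mode: placing the later elements in a realisation of the sample
-/

set_option autoImplicit false

namespace Pool.Agent.GMS

open Finset

section ModeK

variable {n : ℕ} {V : Type*} [Fintype V] [DecidableEq V] [Nonempty V]

/-- the sample: the first `m` elements -/
def Sam (n m : ℕ) : Set (Fin n) := {k | k.val < m}

/-- a graph realising the sample, chosen from the cycles of the sample only -/
noncomputable def eta (m : ℕ) (γ : Fin n → V × V) : Fin n → V × V :=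
  Classical.epsilon fun η : Fin n → V × V =>
    ∀ c, SuppIn (Sam n m) c → (bd γ c = 0 ↔ bd η c = 0)

omit [Fintype V] in
theorem eta_spec (m : ℕ) (γ : Fin n → V × V) :
    ∀ c, SuppIn (Sam n m) c → (bd γ c = 0 ↔ bd (eta m γ) c = 0) :=
  Classical.epsilon_spec (p := fun η : Fin n → V × V =>
    ∀ c, SuppIn (Sam n m) c → (bd γ c = 0 ↔ bd η c = 0)) ⟨γ, fun _ _ => Iff.rfl⟩

omit [Fintype V] in
theorem eta_congr {m : ℕ} {γ γ' : Fin n → V × V}
    (h : ∀ c, SuppIn (Sam n m) c → (bd γ c = 0 ↔ bd γ' c = 0)) : eta m γ = eta m γ' := by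
  unfold eta
  congr 1
  funext η
  apply propext
  refine forall_congr' fun c => imp_congr_right fun hc => ?_
  rw [h c hc]

/-- element `j` is placed as an edge from the red vertex `x` to a blue vertex -/
def InGrp (m : ℕ) (ξ : V → Bool) (γ : Fin n → V × V) (j : Fin n) (x : V) : Prop :=
  ξ x = true ∧ ∃ y, ξ y = false ∧ ∃ c, SuppIn (Sam n m) c ∧ bd γ c = inc (γ j) ∧
    bd (eta m γ) c = inc (x, y)

/-- strict or weak comparison of weights -/
def Beats (st : Bool) (a b : ℝ) : Prop := b ≤ a ∧ (st = true → b < a)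

/-- `k` is in the last phase, in the group of `x`, and beats the observed elements of the group -/
def Cand (m h : ℕ) (st : Bool) (ξ : V → Bool) (γ : Fin n → V × V) (ω : Fin n → ℝ)
    (k : Fin n) (x : V) : Prop :=
  m + h ≤ k.val ∧ InGrp m ξ γ k x ∧
    ∀ l : Fin n, m ≤ l.val → l.val < m + h → InGrp m ξ γ l x → Beats st (ω k) (ω l)

/-- the acceptance rule of the second mode, in the group of `x` -/
def accG (m h : ℕ) (st : Bool) (ξ : V → Bool) (γ : Fin n → V × V) (ω : Fin n → ℝ)
    (i : Fin n) (x : V) : Prop :=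
  Cand m h st ξ γ ω i x ∧ ∀ k < i, ¬ Cand m h st ξ γ ω k x

/-- the acceptance rule of the second mode -/
def accK (m h : ℕ) (st : Bool) (ξ : V → Bool) (γ : Fin n → V × V) (ω : Fin n → ℝ)
    (i : Fin n) : Prop := ∃ x, accG m h st ξ γ ω i x

omit [Fintype V] in
theorem InGrp.unique {m : ℕ} {ξ : V → Bool} {γ : Fin n → V × V} {j : Fin n} {x x' : V}
    (h : InGrp m ξ γ j x) (h' : InGrp m ξ γ j x') : x = x' := by
  obtain ⟨hx, y, hy, c, hc, hb, he⟩ := h
  obtain ⟨hx', y', hy', c', hc', hb', he'⟩ := h'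
  have h0 : bd γ (c + c') = 0 := by rw [bd_add, hb, hb', vadd_self]
  rw [eta_spec m γ _ (hc.add hc'), bd_add, he, he'] at h0
  have h1 : inc (x, y) = inc (x', y') := vadd_eq_zero h0
  have hxy : x ≠ y := fun h => by rw [h, hy] at hx; exact Bool.noConfusion hx
  have h2 := congrFun h1 x
  rw [inc_apply_left hxy] at h2
  by_contra hne
  have hxy' : x ≠ y' := fun h => by rw [h, hy'] at hx; exact Bool.noConfusion hx
  rw [inc_apply_ne hne hxy'] at h2
  exact absurd h2 (by decide)

omit [Fintype V] in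
theorem accG_unique {m h : ℕ} {st : Bool} {ξ : V → Bool} {γ : Fin n → V × V} {ω : Fin n → ℝ}
    {i i' : Fin n} {x : V} (h1 : accG m h st ξ γ ω i x) (h2 : accG m h st ξ γ ω i' x) :
    i = i' := by
  rcases lt_trichotomy i i' with h | h | h
  · exact absurd h1.1 (h2.2 i h)
  · exact h
  · exact absurd h2.1 (h1.2 i' h)

omit [Fintype V] in
/-- The selected elements of the second mode form an independent set. -/
theorem ind_accK (m h : ℕ) (st : Bool) (ξ : V → Bool) (γ : Fin n → V × V) (ω : Fin n → ℝ) :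
    Ind γ {i | accK m h st ξ γ ω i} := by
  intro c hc h0
  by_contra hne
  have hA : ∀ k, c k ≠ 0 → accK m h st ξ γ ω k := by
    intro k hk
    by_contra h'
    exact hk (hc k h')
  have hA' : ∀ k, c k ≠ 0 → ∃ x y C, accG m h st ξ γ ω k x ∧ ξ x = true ∧ ξ y = false ∧
      SuppIn (Sam n m) C ∧ bd γ C = inc (γ k) ∧ bd (eta m γ) C = inc (x, y) := by
    intro k hk
    obtain ⟨x, hx⟩ := hA k hk
    obtain ⟨hx1, y, hy, C, hC1, hC2, hC3⟩ := hx.1.2.1
    exact ⟨x, y, C, hx, hx1, hy, hC1, hC2, hC3⟩
  choose! x y C hacc hx hy hC1 hC2 hC3 using hA'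
  obtain ⟨j0, hj0⟩ : ∃ j, c j ≠ 0 := by
    by_contra h'
    push Not at h'
    exact hne (funext h')
  have hsupp : SuppIn (Sam n m) (∑ j, c j • C j) := by
    intro e he
    rw [Finset.sum_apply]
    refine Finset.sum_eq_zero fun j _ => ?_
    by_cases hj : c j = 0
    · simp [hj]
    · rw [Pi.smul_apply, hC1 j hj e he, smul_zero]
  have hb : bd γ (∑ j, c j • C j) = 0 := by
    rw [map_sum, ← h0, bd_apply]
    refine Finset.sum_congr rfl fun j _ => ?_
    rw [map_smul]
    by_cases hj : c j = 0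
    · simp [hj]
    · rw [hC2 j hj]
  rw [eta_spec m γ _ hsupp, map_sum] at hb
  have h1 := congrFun hb (x j0)
  rw [Finset.sum_apply, Finset.sum_eq_single j0] at h1
  · have hxy : x j0 ≠ y j0 := fun h => by
      have := hx j0 hj0
      rw [h, hy j0 hj0] at this
      exact Bool.noConfusion this
    rw [map_smul, hC3 j0 hj0, z2_ne hj0, one_smul, inc_apply_left hxy, Pi.zero_apply] at h1
    exact absurd h1 (by decide)
  · intro j _ hj
    by_cases hcj : c j = 0
    · simp [hcj]
    · rw [map_smul, hC3 j hcj, Pi.smul_apply]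
      have h2 : x j0 ≠ x j := by
        intro h
        apply hj
        have := hacc j0 hj0
        rw [h] at this
        exact accG_unique (hacc j hcj) this
      have h3 : x j0 ≠ y j := by
        intro h
        have := hx j0 hj0
        rw [h, hy j hcj] at this
        exact Bool.noConfusion this
      rw [inc_apply_ne h2 h3, smul_zero]
  · simp

/-- `j` has a place in the chosen realisation, with ends `x ≠ y` -/
def Placed (m : ℕ) (γ : Fin n → V × V) (j : Fin n) (x y : V) : Prop :=
  x ≠ y ∧ ∃ c, SuppIn (Sam n m) c ∧ bd γ c = inc (γ j) ∧ bd (eta m γ) c = inc (x, y)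

omit [Fintype V] in
theorem Placed.symm {m : ℕ} {γ : Fin n → V × V} {j : Fin n} {x y : V}
    (h : Placed m γ j x y) : Placed m γ j y x := by
  obtain ⟨hxy, c, h1, h2, h3⟩ := h
  exact ⟨hxy.symm, c, h1, h2, by rw [inc_comm]; exact h3⟩

/-- an injective choice of one end for each element of an independent set of placed elements -/
theorem exists_ends (m : ℕ) (γ : Fin n → V × V) (J : Finset (Fin n))
    (hJ : Ind γ (↑J : Set (Fin n))) (hp : ∀ j ∈ J, ∃ x y, Placed m γ j x y) :
    ∃ r o : Fin n → V, (∀ j ∈ J, Placed m γ j (r j) (o j)) ∧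
      ∀ j ∈ J, ∀ j' ∈ J, r j = r j' → j = j' := by
  classical
  choose! x y hxy using hp
  choose! C hC1 hC2 hC3 using fun j (hj : j ∈ J) => (hxy j hj).2
  -- the placed edges are independent too
  have hI' : Ind (fun j => (x j, y j)) (↑J : Set (Fin n)) := by
    intro c hc hb
    apply hJ c hc
    have hcJ : ∀ j, c j ≠ 0 → j ∈ J := by
      intro j hj
      by_contra h'
      exact hj (hc j (by simpa using h'))
    have hsupp : SuppIn (Sam n m) (∑ j, c j • C j) := by
      intro e he
      rw [Finset.sum_apply]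
      refine Finset.sum_eq_zero fun j _ => ?_
      by_cases hj : c j = 0
      · simp [hj]
      · rw [Pi.smul_apply, hC1 j (hcJ j hj) e he, smul_zero]
    have h1 : bd (eta m γ) (∑ j, c j • C j) = 0 := by
      rw [map_sum, ← hb, bd_apply]
      refine Finset.sum_congr rfl fun j _ => ?_
      rw [map_smul]
      by_cases hj : c j = 0
      · simp [hj]
      · rw [hC3 j (hcJ j hj)]
    rw [← eta_spec m γ _ hsupp, map_sum] at h1
    rw [← h1, bd_apply]
    refine Finset.sum_congr rfl fun j _ => ?_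
    rw [map_smul]
    by_cases hj : c j = 0
    · simp [hj]
    · rw [hC2 j (hcJ j hj)]
  have hall' : ∀ A : Finset (Fin n), A ⊆ J →
      A.card ≤ (A.biUnion fun j => ({x j, y j} : Finset V)).card := by
    intro A hA
    rcases A.eq_empty_or_nonempty with h | ⟨j0, hj0⟩
    · simp [h]
    · have := card_le_of_ind (fun j => (x j, y j)) (A.biUnion fun j => ({x j, y j} : Finset V)) A
        (fun f hf => ⟨Finset.mem_biUnion.2 ⟨f, hf, by simp⟩,
          Finset.mem_biUnion.2 ⟨f, hf, by simp⟩⟩)
        ⟨x j0, Finset.mem_biUnion.2 ⟨j0, hj0, by simp⟩⟩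
        (hI'.mono (by exact_mod_cast hA))
      omega
  have hall : ∀ s : Finset {j // j ∈ J}, s.card ≤
      (s.biUnion fun j => ({x j.1, y j.1} : Finset V)).card := by
    intro s
    have h1 := hall' (s.image Subtype.val) (by
      intro j hj
      obtain ⟨a, _, ha⟩ := Finset.mem_image.1 hj
      rw [← ha]; exact a.2)
    rwa [Finset.card_image_of_injective _ Subtype.val_injective, Finset.image_biUnion] at h1
  obtain ⟨f, hf1, hf2⟩ := (Finset.all_card_le_biUnion_card_iff_exists_injective
    (fun j : {j // j ∈ J} => ({x j.1, y j.1} : Finset V))).1 hall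
  let r : Fin n → V := fun j => if h : j ∈ J then f ⟨j, h⟩ else x j
  have hr : ∀ j (h : j ∈ J), r j = f ⟨j, h⟩ := fun j h => by simp only [r, dif_pos h]
  have hr2 : ∀ j ∈ J, r j = x j ∨ r j = y j := by
    intro j hj
    have := hf2 ⟨j, hj⟩
    rw [← hr j hj] at this
    simpa using this
  refine ⟨r, fun j => if r j = x j then y j else x j, ?_, ?_⟩
  · intro j hj
    dsimp only
    by_cases h : r j = x j
    · rw [if_pos h, h]; exact hxy j hj
    · rw [if_neg h]
      have h' : r j = y j := (hr2 j hj).resolve_left h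
      rw [h']; exact (hxy j hj).symm
  · intro j hj j' hj' h
    rw [hr j hj, hr j' hj'] at h
    have := hf1 h
    simpa using this

/-! ### what the rule sees -/

omit [Fintype V] [DecidableEq V] [Nonempty V] in
theorem sam_subset {m : ℕ} {i : Fin n} (h : m ≤ i.val) : Sam n m ⊆ Set.Iic i := by
  intro k hk
  have : k.val < m := hk
  exact Fin.le_def.2 (by omega)

omit [Fintype V] in
theorem Cyc.eta {m : ℕ} {γ γ' : Fin n → V × V} {i : Fin n} (h : Cyc γ γ' i) (hm : m ≤ i.val) :
    eta m γ = eta m γ' :=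
  eta_congr fun c hc => h c (hc.mono (sam_subset hm))

omit [Fintype V] in
theorem Cyc.inGrp {m : ℕ} {ξ : V → Bool} {γ γ' : Fin n → V × V} {i : Fin n} (h : Cyc γ γ' i)
    (hm : m ≤ i.val) {j : Fin n} (hj : j ≤ i) (x : V) : InGrp m ξ γ j x ↔ InGrp m ξ γ' j x := by
  unfold InGrp
  refine and_congr_right fun _ => exists_congr fun y => and_congr_right fun _ =>
    exists_congr fun c => and_congr_right fun hc => ?_
  rw [h.bd_eq hj (hc.mono (sam_subset hm)), h.eta hm]

omit [Fintype V] in
theorem Cyc.cand {m h : ℕ} {st : Bool} {ξ : V → Bool} {γ γ' : Fin n → V × V} {i : Fin n}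
    {ω ω' : Fin n → ℝ} (hC : Cyc γ γ' i) (hω : ∀ j ≤ i, ω j = ω' j) {k : Fin n} (hk : k ≤ i)
    (x : V) : Cand m h st ξ γ ω k x ↔ Cand m h st ξ γ' ω' k x := by
  unfold Cand
  refine and_congr_right fun hmk => ?_
  have hm : m ≤ i.val := by have := Fin.le_def.1 hk; omega
  rw [hC.inGrp hm hk]
  refine and_congr_right fun _ => forall_congr' fun l => imp_congr_right fun _ =>
    imp_congr_right fun hl => ?_
  have hli : l ≤ i := Fin.le_def.2 (by have := Fin.le_def.1 hk; omega)
  rw [hC.inGrp hm hli, hω k hk, hω l hli]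

omit [Fintype V] in
theorem Cyc.accK {m h : ℕ} {st : Bool} {ξ : V → Bool} {γ γ' : Fin n → V × V} {i : Fin n}
    {ω ω' : Fin n → ℝ} (hC : Cyc γ γ' i) (hω : ∀ j ≤ i, ω j = ω' j) :
    accK m h st ξ γ ω i ↔ accK m h st ξ γ' ω' i := by
  unfold GMS.accK accG
  refine exists_congr fun x => ?_
  rw [hC.cand hω le_rfl]
  refine and_congr_right fun _ => forall_congr' fun k => imp_congr_right fun hk => not_congr ?_
  exact hC.cand hω hk.le x

end ModeK

end Pool.Agent.GMS
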