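import Pool.Agent.Work.MP_3bf421_lc.Chain

/-!
# Three internally disjoint paths force the place of an edge in every realisation
-/

set_option autoImplicit false

namespace Pool.Agent.GMS

open Finset

section Place

variable {E V W : Type*} [Fintype E] [DecidableEq E] [Fintype V] [DecidableEq V]
  [Fintype W] [DecidableEq W]

/-- number of edge ends at `z` -/
def deg (η : E → W × W) (P : Finset E) (z : W) : ℕ :=
  (P.filter fun f => (η f).1 = z).card + (P.filter fun f => (η f).2 = z).card

omit [Fintype E] [Fintype W] in
theorem deg_union (η : E → W × W) {P Q : Finset E} (h : Disjoint P Q) (z : W) :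
    deg η (P ∪ Q) z = deg η P z + deg η Q z := by
  unfold deg
  rw [Finset.filter_union, Finset.filter_union, Finset.card_union_of_disjoint,
    Finset.card_union_of_disjoint]
  · ring
  · exact Finset.disjoint_filter_filter h
  · exact Finset.disjoint_filter_filter h

omit [Fintype E] [DecidableEq E] in
theorem sum_deg (η : E → W × W) (P : Finset E) : ∑ z, deg η P z = 2 * P.card := by
  unfold deg
  rw [Finset.sum_add_distrib,
    ← Finset.card_eq_sum_card_fiberwise (fun x _ => Finset.mem_coe.2 (Finset.mem_univ _)),
    ← Finset.card_eq_sum_card_fiberwise (fun x _ => Finset.mem_coe.2 (Finset.mem_univ _))]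
  ring

omit [DecidableEq E] [Fintype W] in
theorem bd_eq_deg (η : E → W × W) (c : E → ZMod 2) (z : W) :
    bd η c z = (deg η (sp c) z : ZMod 2) := by
  have h1 : ∀ e, (c e • inc (η e)) z
      = (if c e ≠ 0 ∧ (η e).1 = z then (1 : ZMod 2) else 0)
        + (if c e ≠ 0 ∧ (η e).2 = z then (1 : ZMod 2) else 0) := by
    intro e
    by_cases he : c e = 0
    · simp [he]
    · have : c e = 1 := z2_ne he
      simp only [this, inc, one_smul, Pi.add_apply, Pi.single_apply, ne_eq, one_ne_zero,
        not_false_eq_true, true_and]
      congr 1 <;> simp only [eq_comm]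
  rw [bd_apply, Finset.sum_apply, Finset.sum_congr rfl (fun e _ => h1 e),
    Finset.sum_add_distrib]
  unfold deg sp
  rw [Finset.filter_filter, Finset.filter_filter]
  push_cast
  rw [Finset.natCast_card_filter, Finset.natCast_card_filter]

theorem mod_parity {a : ℕ} {b : ZMod 2} (h : b = (a : ZMod 2)) : (b = 0 → Even a) ∧
    (b = 1 → Odd a) := by
  constructor
  · intro hb
    rw [hb] at h
    exact (ZMod.natCast_eq_zero_iff_even).1 h.symm
  · intro hb
    rw [hb] at h
    exact (ZMod.natCast_eq_one_iff_odd).1 h.symm

/-- dimension bound: an independent set of edges whose ends lie in `U` has at most `|U| - 1`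
elements -/
theorem card_le_of_ind (η : E → W × W) (U : Finset W) (T' : Finset E)
    (hU : ∀ f ∈ T', (η f).1 ∈ U ∧ (η f).2 ∈ U) (hne : U.Nonempty)
    (hI : Ind η (↑T' : Set E)) : T'.card + 1 ≤ U.card := by
  obtain ⟨z0, hz0⟩ := hne
  -- coefficients on T' map injectively to vectors on U \ {z0}
  let F : ({f // f ∈ T'} → ZMod 2) → ({z // z ∈ U.erase z0} → ZMod 2) := fun a z =>
    bd η (fun f => if h : f ∈ T' then a ⟨f, h⟩ else 0) z.1
  have hF : Function.Injective F := by
    intro a b hab
    set ca : E → ZMod 2 := fun f => if h : f ∈ T' then a ⟨f, h⟩ else 0 with hca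
    set cb : E → ZMod 2 := fun f => if h : f ∈ T' then b ⟨f, h⟩ else 0 with hcb
    have hsupp : SuppIn (↑T' : Set E) (ca + cb) := by
      intro f hf
      have hf' : f ∉ T' := by simpa using hf
      simp [hca, hcb, hf']
    have hzero : bd η (ca + cb) = 0 := by
      -- zero off z0
      have hoff : ∀ z, z ≠ z0 → bd η (ca + cb) z = 0 := by
        intro z hz
        by_cases hzU : z ∈ U
        · have := congrFun hab ⟨z, Finset.mem_erase.2 ⟨hz, hzU⟩⟩
          change bd η ca z = bd η cb z at this
          rw [bd_add, Pi.add_apply, this, z2_add_self]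
        · rw [bd_apply, Finset.sum_apply]
          refine Finset.sum_eq_zero fun f _ => ?_
          by_cases hf : f ∈ T'
          · have h1 := (hU f hf).1
            have h2 := (hU f hf).2
            have : inc (η f) z = 0 :=
              inc_apply_ne (fun h => hzU (h ▸ h1)) (fun h => hzU (h ▸ h2))
            rw [Pi.smul_apply, this, smul_zero]
          · rw [hsupp f (by simpa using hf), zero_smul, Pi.zero_apply]
      have hsum := sum_bd η (ca + cb)
      rw [Finset.sum_eq_single z0 (fun z _ hz => hoff z hz) (by simp)] at hsum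
      funext z
      by_cases hz : z = z0
      · rw [hz, hsum]; rfl
      · rw [hoff z hz]; rfl
    have h0 := hI _ hsupp hzero
    funext ⟨f, hf⟩
    have := congrFun h0 f
    simp only [hca, hcb, hf, dif_pos, Pi.add_apply, Pi.zero_apply] at this
    rcases z2 (a ⟨f, hf⟩) with h1 | h1 <;> rcases z2 (b ⟨f, hf⟩) with h2 | h2 <;>
      rw [h1, h2] at this ⊢ <;> revert this <;> decide
  have hcard := Fintype.card_le_of_injective F hF
  rw [Fintype.card_fun, Fintype.card_fun, ZMod.card, Fintype.card_coe, Fintype.card_coe] at hcard
  have := (Nat.pow_le_pow_iff_right (by norm_num : 1 < 2)).1 hcard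
  rw [Finset.card_erase_of_mem hz0] at this
  have : 0 < U.card := Finset.card_pos.2 ⟨z0, hz0⟩
  omega

omit [Fintype E] [DecidableEq E] [Fintype V] [DecidableEq V] [Fintype W] [DecidableEq W] in
theorem inc_of_two {W : Type*} [Fintype W] [DecidableEq W] (d : W → ZMod 2)
    (hsum : ∑ z, d z = 0) (hne : d ≠ 0) (hcard : (univ.filter fun z => d z ≠ 0).card ≤ 2) :
    ∃ x y : W, x ≠ y ∧ d = inc (x, y) := by
  set D := univ.filter fun z => d z ≠ 0 with hD
  have hev : Even D.card := by
    have h1 : ∑ z, d z = ∑ z, (if d z ≠ 0 then (1 : ZMod 2) else 0) := by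
      refine Finset.sum_congr rfl fun z _ => ?_
      by_cases hz : d z = 0
      · simp [hz]
      · simp [z2_ne hz]
    rw [h1, ← Finset.natCast_card_filter] at hsum
    exact (ZMod.natCast_eq_zero_iff_even).1 hsum
  have hpos : 0 < D.card := by
    rw [Finset.card_pos]
    by_contra h
    rw [Finset.not_nonempty_iff_eq_empty] at h
    apply hne
    funext z
    by_contra hz
    have : z ∈ D := by simp [hD]; exact hz
    rw [h] at this
    simp at this
  have h2 : D.card = 2 := by
    rcases hev with ⟨k, hk⟩
    omega
  obtain ⟨x, y, hxy, hDxy⟩ := Finset.card_eq_two.1 h2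
  refine ⟨x, y, hxy, ?_⟩
  funext z
  by_cases hx : z = x
  · have : z ∈ D := by rw [hDxy]; simp [hx]
    have hz : d z ≠ 0 := by simpa [hD] using this
    rw [z2_ne hz, hx, inc_apply_left hxy]
  by_cases hy : z = y
  · have : z ∈ D := by rw [hDxy]; simp [hy]
    have hz : d z ≠ 0 := by simpa [hD] using this
    rw [z2_ne hz, hy, inc_apply_right hxy]
  · have : z ∉ D := by rw [hDxy]; simp [hx, hy]
    have hz : d z = 0 := by
      by_contra h'
      exact this (by simp [hD]; exact h')
    rw [hz, inc_apply_ne hx hy]

omit [Fintype W] in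
/-- the key lemma: three internally disjoint paths between the ends of `e` inside the sample `S`
force the place of `e` in every graph realising the sample -/
theorem place_core [Fintype W] (γ : E → V × V) (η : E → W × W) (S : Set E)
    (hcyc : ∀ c, SuppIn S c → (bd γ c = 0 ↔ bd η c = 0))
    {u v : V} (huv : u ≠ v) {K : Type*} (ξ : V → K) (a : Fin 3 → K) (ha : Function.Injective a)
    (hc : ∀ i, ∃ c, SuppIn S c ∧ bd γ c = inc (u, v) ∧
      ∀ f, c f ≠ 0 → ∀ z, (z = (γ f).1 ∨ z = (γ f).2) → z = u ∨ z = v ∨ ξ z = a i) :
    ∃ c, SuppIn S c ∧ bd γ c = inc (u, v) ∧ ∃ x y : W, x ≠ y ∧ bd η c = inc (x, y) := by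
  classical
  -- minimal choices
  have hmin : ∀ i, ∃ c, (SuppIn S c ∧ bd γ c = inc (u, v) ∧
      ∀ f, c f ≠ 0 → ∀ z, (z = (γ f).1 ∨ z = (γ f).2) → z = u ∨ z = v ∨ ξ z = a i) ∧
      Ind γ (↑(sp c) : Set E) := by
    intro i
    obtain ⟨c, h1, h2⟩ := exists_min_image (univ.filter fun c : E → ZMod 2 =>
        SuppIn S c ∧ bd γ c = inc (u, v) ∧
      ∀ f, c f ≠ 0 → ∀ z, (z = (γ f).1 ∨ z = (γ f).2) → z = u ∨ z = v ∨ ξ z = a i)
        (fun c => (sp c).card) (by
          obtain ⟨c, hc⟩ := hc i
          exact ⟨c, by simpa only [Finset.mem_filter, Finset.mem_univ, true_and] using hc⟩)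
    have h1' := h1
    simp only [Finset.mem_filter, Finset.mem_univ, true_and] at h1
    obtain ⟨hs, hb, hcol⟩ := h1
    refine ⟨c, ⟨hs, hb, hcol⟩, ?_⟩
    intro d hd hd0
    by_contra hdne
    have hsub : sp d ⊆ sp c := sp_subset_of_suppIn hd
    have hmem : c + d ∈ univ.filter fun c : E → ZMod 2 =>
        SuppIn S c ∧ bd γ c = inc (u, v) ∧
      ∀ f, c f ≠ 0 → ∀ z, (z = (γ f).1 ∨ z = (γ f).2) → z = u ∨ z = v ∨ ξ z = a i := by
      simp only [Finset.mem_filter, Finset.mem_univ, true_and]
      refine ⟨hs.add (hd.mono ?_), ?_, ?_⟩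
      · intro e he
        by_contra h'
        exact (mem_sp.1 (by simpa using he)) (hs e h')
      · rw [bd_add, hb, hd0, add_zero]
      · intro f hf
        have : f ∈ sp (c + d) := mem_sp.2 hf
        rw [sp_add_of_subset hsub] at this
        exact hcol f (mem_sp.1 (Finset.mem_sdiff.1 this).1)
    have hle := h2 _ hmem
    rw [sp_add_of_subset hsub, Finset.card_sdiff_of_subset hsub] at hle
    have h3 : 0 < (sp d).card := Finset.card_pos.2 (Finset.nonempty_iff_ne_empty.2
        (fun h' => hdne (sp_eq_empty.1 h')))
    have h4 := Finset.card_le_card hsub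
    omega
  choose c hgood hind using hmin
  have hs : ∀ i, SuppIn S (c i) := fun i => (hgood i).1
  have hb : ∀ i, bd γ (c i) = inc (u, v) := fun i => (hgood i).2.1
  have hcol : ∀ i, ∀ f, c i f ≠ 0 → ∀ z, (z = (γ f).1 ∨ z = (γ f).2) →
    z = u ∨ z = v ∨ ξ z = a i := fun i => (hgood i).2.2
  have hincne : inc (u, v) ≠ 0 := fun h => huv ((inc_eq_zero_iff _).1 h)
  have hne : ∀ i, c i ≠ 0 := by
    intro i h
    have := hb i
    rw [h, map_zero] at this
    exact hincne this.symm
  have hspS : ∀ i, (↑(sp (c i)) : Set E) ⊆ S := by
    intro i e he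
    by_contra h'
    exact (mem_sp.1 (by simpa using he)) (hs i e h')
  by_cases hA : ∃ i j, i ≠ j ∧ ¬ Disjoint (sp (c i)) (sp (c j))
  · obtain ⟨i, j, hij, hdis⟩ := hA
    rw [Finset.not_disjoint_iff] at hdis
    obtain ⟨f, hfi, hfj⟩ := hdis
    have hfS : f ∈ S := hspS i (by simpa using hfi)
    have hfends : ∀ z, (z = (γ f).1 ∨ z = (γ f).2) → z = u ∨ z = v := by
      intro z hz
      rcases hcol i f (mem_sp.1 hfi) z hz with h | h | h
      · exact Or.inl h
      · exact Or.inr h
      rcases hcol j f (mem_sp.1 hfj) z hz with h' | h' | h'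
      · exact Or.inl h'
      · exact Or.inr h'
      exact absurd (ha (h.symm.trans h')) hij
    have hbf : bd γ (Pi.single f 1) ≠ 0 := by
      intro h0
      have := hind i (Pi.single f 1) (SuppIn.single (by simpa using hfi) 1) h0
      have := congrFun this f
      simp at this
    have hbf' : bd γ (Pi.single f 1) = inc (u, v) := by
      rw [bd_single] at hbf ⊢
      have hne' : (γ f).1 ≠ (γ f).2 := fun h => hbf ((inc_eq_zero_iff _).2 h)
      rcases hfends _ (Or.inl rfl) with h1 | h1 <;> rcases hfends _ (Or.inr rfl) with h2 | h2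
      · exact absurd (h1.trans h2.symm) hne'
      · rw [show γ f = (u, v) from Prod.ext h1 h2]
      · rw [show γ f = (v, u) from Prod.ext h1 h2, inc_comm]
      · exact absurd (h1.trans h2.symm) hne'
    refine ⟨Pi.single f 1, SuppIn.single hfS 1, hbf', (η f).1, (η f).2, ?_, ?_⟩
    · intro h
      apply hbf
      rw [hcyc _ (SuppIn.single hfS 1), bd_single, inc_eq_zero_iff]
      exact h
    · rw [bd_single]
  · push Not at hA
    -- pairwise disjoint
    have hdis : ∀ i j, i ≠ j → Disjoint (sp (c i)) (sp (c j)) := hA
    set T : Finset E := sp (c 0) ∪ sp (c 1) ∪ sp (c 2) with hT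
    obtain ⟨f1, hf1⟩ : (sp (c 1)).Nonempty := Finset.nonempty_iff_ne_empty.2
      (fun h => hne 1 (sp_eq_empty.1 h))
    obtain ⟨f2, hf2⟩ : (sp (c 2)).Nonempty := Finset.nonempty_iff_ne_empty.2
      (fun h => hne 2 (sp_eq_empty.1 h))
    have hf12 : f1 ≠ f2 := fun h => by
      have := Finset.disjoint_left.1 (hdis 1 2 (by decide)) hf1
      exact this (h ▸ hf2)
    set T' : Finset E := (T.erase f1).erase f2 with hT'
    have hf1T : f1 ∈ T := by simp [hT, hf1]
    have hf2T : f2 ∈ T := by simp [hT, hf2]
    have hcardT' : T'.card + 2 = T.card := by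
      rw [hT', Finset.card_erase_of_mem (Finset.mem_erase.2 ⟨hf12.symm, hf2T⟩),
        Finset.card_erase_of_mem hf1T]
      have : 2 ≤ T.card := by
        have : ({f1, f2} : Finset E) ⊆ T := by
          intro x hx
          simp only [Finset.mem_insert, Finset.mem_singleton] at hx
          rcases hx with h | h <;> rw [h] <;> assumption
        have h2 := Finset.card_le_card this
        rwa [Finset.card_pair hf12] at h2
      omega
    have hTS : (↑T : Set E) ⊆ S := by
      rw [hT]
      push_cast
      exact Set.union_subset (Set.union_subset (hspS 0) (hspS 1)) (hspS 2)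
    have hT'T : T' ⊆ T := (Finset.erase_subset _ _).trans (Finset.erase_subset _ _)
    -- independence of T' in γ
    have hIγ : Ind γ (↑T' : Set E) := by
      intro d hd hd0
      -- restrictions
      let r : Fin 3 → E → ZMod 2 := fun i f => if f ∈ sp (c i) then d f else 0
      have hrs : ∀ i, SuppIn (↑(sp (c i)) : Set E) (r i) := by
        intro i f hf
        have : f ∉ sp (c i) := by simpa using hf
        simp only [r, this, if_false]
      have hsum : d = r 0 + r 1 + r 2 := by
        funext f
        simp only [r, Pi.add_apply]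
        by_cases h0 : f ∈ sp (c 0)
        · have h1 := Finset.disjoint_left.1 (hdis 0 1 (by decide)) h0
          have h2 := Finset.disjoint_left.1 (hdis 0 2 (by decide)) h0
          simp [h0, h1, h2]
        · by_cases h1 : f ∈ sp (c 1)
          · have h2 := Finset.disjoint_left.1 (hdis 1 2 (by decide)) h1
            simp [h0, h1, h2]
          · by_cases h2 : f ∈ sp (c 2)
            · simp [h0, h1, h2]
            · have : f ∉ T' := fun h => by
                have := hT'T h
                rw [hT] at this
                simp only [Finset.mem_union] at this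
                tauto
              simp only [h0, h1, h2, if_false, add_zero]
              exact hd f (by simpa using this)
      have hoff : ∀ i z, ξ z ≠ a i → z ≠ u → z ≠ v → bd γ (r i) z = 0 := by
        intro i z hz hzu hzv
        rw [bd_apply, Finset.sum_apply]
        refine Finset.sum_eq_zero fun f _ => ?_
        by_cases hf : r i f = 0
        · rw [hf, zero_smul]; rfl
        · have hfc : c i f ≠ 0 := by
            by_contra h'
            apply hf
            exact hrs i f (by simpa [mem_sp] using h')
          have hn : ∀ z', (z' = (γ f).1 ∨ z' = (γ f).2) → z ≠ z' := by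
            intro z' hz' hzz
            rcases hcol i f hfc z' hz' with h | h | h
            · exact hzu (hzz.trans h)
            · exact hzv (hzz.trans h)
            · exact hz (by rw [hzz]; exact h)
          have : inc (γ f) z = 0 := inc_apply_ne (hn _ (Or.inl rfl)) (hn _ (Or.inr rfl))
          rw [Pi.smul_apply, this, smul_zero]
      have hbsum : ∀ z, bd γ (r 0) z + bd γ (r 1) z + bd γ (r 2) z = 0 := by
        intro z
        have := congrFun hd0 z
        rw [hsum, bd_add, bd_add] at this
        simpa using this
      have hin : ∀ i z, z ≠ u → z ≠ v → bd γ (r i) z = 0 := by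
        intro i z hzu hzv
        by_cases hz : ξ z = a i
        · have hj : ∀ j, j ≠ i → bd γ (r j) z = 0 := fun j hj =>
            hoff j z (fun h => hj (ha (h.symm.trans hz))) hzu hzv
          have hb3 := hbsum z
          fin_cases i
          · have h1 := hj 1 (by decide)
            have h2 := hj 2 (by decide)
            rw [h1, h2] at hb3
            simpa using hb3
          · have h1 := hj 0 (by decide)
            have h2 := hj 2 (by decide)
            rw [h1, h2] at hb3
            simpa using hb3
          · have h1 := hj 0 (by decide)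
            have h2 := hj 1 (by decide)
            rw [h1, h2] at hb3
            simpa using hb3
        · exact hoff i z hz hzu hzv
      have hdich : ∀ i, bd γ (r i) = 0 ∨ bd γ (r i) = inc (u, v) := by
        intro i
        have hs0 := sum_bd γ (r i)
        have hs1 : ∑ z, bd γ (r i) z = bd γ (r i) u + bd γ (r i) v := by
          rw [← Finset.sum_pair huv]
          symm
          apply Finset.sum_subset (Finset.subset_univ _)
          intro z _ hz
          simp only [Finset.mem_insert, Finset.mem_singleton, not_or] at hz
          exact hin i z hz.1 hz.2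
        rw [hs1] at hs0
        rcases z2 (bd γ (r i) u) with h | h
        · left
          rw [h, zero_add] at hs0
          funext z
          by_cases hzu : z = u
          · rw [hzu, h]; rfl
          by_cases hzv : z = v
          · rw [hzv, hs0]; rfl
          rw [hin i z hzu hzv]; rfl
        · right
          have hv : bd γ (r i) v = 1 := by
            rcases z2 (bd γ (r i) v) with h' | h'
            · rw [h, h'] at hs0; exact absurd hs0 (by decide)
            · exact h'
          funext z
          by_cases hzu : z = u
          · rw [hzu, h, inc_apply_left huv]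
          by_cases hzv : z = v
          · rw [hzv, hv, inc_apply_right huv]
          rw [hin i z hzu hzv, inc_apply_ne hzu hzv]
      have hfull : ∀ i, bd γ (r i) = inc (u, v) → r i = c i := by
        intro i hi
        have h0 : bd γ (r i + c i) = 0 := by rw [bd_add, hi, hb i, vadd_self]
        exact vadd_eq_zero (hind i _ ((hrs i).add (suppIn_sp _)) h0)
      have hr1 : r 1 = 0 := by
        rcases hdich 1 with h | h
        · exact hind 1 _ (hrs 1) h
        · exfalso
          have h' := congrFun (hfull 1 h) f1
          have hz : d f1 = 0 := hd f1 (by simp [hT'])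
          have : r 1 f1 = 0 := by simp only [r, hz, ite_self]
          rw [this] at h'
          exact (mem_sp.1 hf1) h'.symm
      have hr2 : r 2 = 0 := by
        rcases hdich 2 with h | h
        · exact hind 2 _ (hrs 2) h
        · exfalso
          have h' := congrFun (hfull 2 h) f2
          have hz : d f2 = 0 := hd f2 (by simp [hT'])
          have : r 2 f2 = 0 := by simp only [r, hz, ite_self]
          rw [this] at h'
          exact (mem_sp.1 hf2) h'.symm
      rw [hsum, hr1, hr2, add_zero, add_zero]
      apply hind 0 _ (hrs 0)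
      rw [hsum, hr1, hr2, add_zero, add_zero] at hd0
      exact hd0
    -- independence of T' in η
    have hIη : Ind η (↑T' : Set E) := by
      intro d hd hd0
      apply hIγ d hd
      rw [hcyc d (hd.mono ((Finset.coe_subset.2 hT'T).trans hTS))]
      exact hd0
    set U : Finset W := T.image (fun f => (η f).1) ∪ T.image (fun f => (η f).2) with hU
    have hUc : T'.card + 1 ≤ U.card := by
      apply card_le_of_ind η U T' _ _ hIη
      · intro f hf
        have hfT := hT'T hf
        exact ⟨Finset.mem_union_left _ (Finset.mem_image_of_mem _ hfT),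
          Finset.mem_union_right _ (Finset.mem_image_of_mem _ hfT)⟩
      · exact ⟨_, Finset.mem_union_left _ (Finset.mem_image_of_mem _ hf1T)⟩
    set d : W → ZMod 2 := bd η (c 0) with hd
    have hdi : ∀ i, bd η (c i) = d := by
      intro i
      have h0 : bd γ (c i + c 0) = 0 := by rw [bd_add, hb i, hb 0, vadd_self]
      rw [hcyc _ ((hs i).add (hs 0)), bd_add] at h0
      exact vadd_eq_zero h0
    have hdne : d ≠ 0 := by
      intro h
      rw [hd, ← hcyc _ (hs 0), hb 0] at h
      exact hincne h
    have hdeg : ∀ z, (if z ∈ U then 2 else 0) + (if d z ≠ 0 then 1 else 0) ≤ deg η T z := by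
      intro z
      have hsplit : deg η T z = deg η (sp (c 0)) z + deg η (sp (c 1)) z + deg η (sp (c 2)) z := by
        rw [hT, deg_union η (Finset.disjoint_union_left.2
          ⟨hdis 0 2 (by decide), hdis 1 2 (by decide)⟩), deg_union η (hdis 0 1 (by decide))]
      have hpar : ∀ i, d z = (deg η (sp (c i)) z : ZMod 2) := by
        intro i
        rw [← bd_eq_deg, hdi i]
      by_cases hdz : d z = 0
      · have hE : ∀ i, Even (deg η (sp (c i)) z) := fun i => (mod_parity (hpar i)).1 hdz
        simp only [hdz, ne_eq, not_true_eq_false, if_false, add_zero]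
        split_ifs with hz
        · have hpos : 0 < deg η T z := by
            unfold deg
            rw [hU, Finset.mem_union, Finset.mem_image, Finset.mem_image] at hz
            rcases hz with ⟨f, hf, hfz⟩ | ⟨f, hf, hfz⟩
            · have : 0 < (T.filter fun f => (η f).1 = z).card :=
                Finset.card_pos.2 ⟨f, Finset.mem_filter.2 ⟨hf, hfz⟩⟩
              omega
            · have : 0 < (T.filter fun f => (η f).2 = z).card :=
                Finset.card_pos.2 ⟨f, Finset.mem_filter.2 ⟨hf, hfz⟩⟩
              omega
          have hEv : Even (deg η T z) := by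
            rw [hsplit]; exact ((hE 0).add (hE 1)).add (hE 2)
          rcases hEv with ⟨k, hk⟩
          omega
        · exact Nat.zero_le _
      · have hO : ∀ i, Odd (deg η (sp (c i)) z) := fun i => (mod_parity (hpar i)).2 (z2_ne hdz)
        have h0 := (hO 0).pos
        have h1 := (hO 1).pos
        have h2 := (hO 2).pos
        rw [hsplit]
        split_ifs <;> omega
    have hsumdeg : 2 * U.card + (univ.filter fun z => d z ≠ 0).card ≤ 2 * T.card := by
      rw [← sum_deg η T]
      have e1 : ∑ z, (if z ∈ U then 2 else 0) = 2 * U.card := by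
        rw [← Finset.sum_filter]; simp [mul_comm]
      have e2 : ∑ z, (if d z ≠ 0 then 1 else 0) = (univ.filter fun z => d z ≠ 0).card := by
        rw [Finset.card_filter]
      calc 2 * U.card + (univ.filter fun z => d z ≠ 0).card
          = ∑ z, ((if z ∈ U then 2 else 0) + (if d z ≠ 0 then 1 else 0)) := by
            rw [Finset.sum_add_distrib, e1, e2]
        _ ≤ ∑ z, deg η T z := Finset.sum_le_sum fun z _ => hdeg z
    have hD2 : (univ.filter fun z => d z ≠ 0).card ≤ 2 := by omega
    obtain ⟨x, y, hxy, hdxy⟩ := inc_of_two d (sum_bd η (c 0)) hdne hD2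
    exact ⟨c 0, hs 0, hb 0, x, y, hxy, hdxy⟩

end Place

end Pool.Agent.GMS
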