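import Pool.Agent.Work.MP_3bf421_lc.ModeK

/-!
# One element per group: the threshold rule and random swaps of the last two phases
-/

set_option autoImplicit false

namespace Pool.Agent.GMS

open Finset

/-- two prescribed bits (consistent if they are the same bit) hold for a quarter of the vectors -/
theorem card_two {ι : Type*} [Fintype ι] [DecidableEq ι] (s t : ι) (α β : Bool)
    (h : s = t → α = β) : Fintype.card (ι → Bool)
      ≤ 4 * (univ.filter fun ε : ι → Bool => ε s = α ∧ ε t = β).card := by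
  classical
  let F : (ι → Bool) → {ε : ι → Bool // ε ∈ univ.filter fun ε : ι → Bool => ε s = α ∧ ε t = β}
      × (Bool × Bool) := fun ε =>
    (⟨Function.update (Function.update ε t β) s α, by
      rw [Finset.mem_filter]
      refine ⟨Finset.mem_univ _, by simp, ?_⟩
      by_cases hst : t = s
      · rw [hst, Function.update_self]; exact h hst.symm
      · rw [Function.update_of_ne hst, Function.update_self]⟩, (ε s, ε t))
  have hF : Function.Injective F := by
    intro ε ε' hε
    simp only [F, Prod.mk.injEq, Subtype.mk.injEq] at hε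
    obtain ⟨h1, h2, h3⟩ := hε
    funext k
    by_cases hks : k = s
    · rw [hks]; exact h2
    by_cases hkt : k = t
    · rw [hkt]; exact h3
    have := congrFun h1 k
    rwa [Function.update_of_ne hks, Function.update_of_ne hkt, Function.update_of_ne hks,
      Function.update_of_ne hkt] at this
  have hcard := Fintype.card_le_of_injective F hF
  rw [Fintype.card_prod, Fintype.card_coe] at hcard
  have h4 : Fintype.card (Bool × Bool) = 4 := by decide
  rw [h4] at hcard
  omega

section Sec

variable {n : ℕ} {V : Type*} [Fintype V] [DecidableEq V] [Nonempty V]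

omit [Fintype V] in
theorem exists_first {m h : ℕ} {st : Bool} {ξ : V → Bool} {γ : Fin n → V × V} {ω : Fin n → ℝ}
    {k : Fin n} {x : V} (hk : Cand m h st ξ γ ω k x) : ∃ i, accG m h st ξ γ ω i x := by
  obtain ⟨i, hi, hmin⟩ := (wellFounded_lt (α := Fin n)).has_min
    {k | Cand m h st ξ γ ω k x} ⟨k, hk⟩
  exact ⟨i, hi, fun k' hk' hc => hmin k' hc hk'⟩

omit [Fintype V] in
/-- if the best element of a group comes in the last phase and the second best is observed, one of
the two threshold rules gets the best weight -/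
theorem group_success {m h : ℕ} {ξ : V → Bool} {γ : Fin n → V × V} {ω : Fin n → ℝ} {x : V}
    {e1 : Fin n} (h1 : m + h ≤ e1.val) (hg : InGrp m ξ γ e1 x)
    (hmax : ∀ k : Fin n, m ≤ k.val → InGrp m ξ γ k x → ω k ≤ ω e1)
    (h2 : (∃ e2 : Fin n, m ≤ e2.val ∧ e2.val < m + h ∧ InGrp m ξ γ e2 x ∧
      ∀ k : Fin n, m ≤ k.val → InGrp m ξ γ k x → k ≠ e1 → ω k ≤ ω e2) ∨
      (∀ k : Fin n, m ≤ k.val → InGrp m ξ γ k x → k = e1)) :
    ∃ st i, accG m h st ξ γ ω i x ∧ ω e1 ≤ ω i := by
  rcases h2 with ⟨e2, he2m, he2h, he2g, he2⟩ | h2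
  · by_cases hlt : ω e2 < ω e1
    · -- strict rule
      refine ⟨true, e1, ⟨⟨h1, hg, ?_⟩, ?_⟩, le_rfl⟩
      · intro l hl1 hl2 hl3
        have hne : l ≠ e1 := fun h => by rw [h] at hl2; omega
        have := he2 l hl1 hl3 hne
        exact ⟨by linarith, fun _ => by linarith⟩
      · intro k hk hc
        obtain ⟨hk1, hk2, hk3⟩ := hc
        have hb := hk3 e2 he2m he2h he2g
        have := he2 k (by omega) hk2 (ne_of_lt hk)
        have h3 := hb.2 rfl
        linarith
    · -- weak rule
      have hc : Cand m h false ξ γ ω e1 x := by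
        refine ⟨h1, hg, fun l hl1 _ hl3 => ⟨hmax l hl1 hl3, fun hf => ?_⟩⟩
        exact absurd hf (by decide)
      obtain ⟨i, hi⟩ := exists_first hc
      refine ⟨false, i, hi, ?_⟩
      have := (hi.1.2.2 e2 he2m he2h he2g).1
      linarith
  · refine ⟨true, e1, ⟨⟨h1, hg, ?_⟩, ?_⟩, le_rfl⟩
    · intro l hl1 hl2 hl3
      have := h2 l hl1 hl3
      rw [this] at hl2
      omega
    · intro k hk hc
      exact (ne_of_lt hk) (h2 k (by have := hc.1; omega) hc.2.1)

/-! ### swaps between the last two phases -/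

/-- swap position `k` of the observation phase with position `k + h`, for the chosen `k` -/
def sw (m h : ℕ) (hn : m + 2 * h = n) (ε : Fin n → Bool) (k : Fin n) : Fin n :=
  if h1 : m + h ≤ k.val then
    (if ε ⟨k.val - h, by omega⟩ then ⟨k.val - h, by omega⟩ else k)
  else if h2 : m ≤ k.val then
    (if ε k then ⟨k.val + h, by omega⟩ else k)
  else k

theorem sw_sam {m h : ℕ} (hn : m + 2 * h = n) (ε : Fin n → Bool) {k : Fin n} (hk : k.val < m) :
    sw m h hn ε k = k := by
  unfold sw
  rw [dif_neg (by omega), dif_neg (by omega)]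

theorem sw_invol {m h : ℕ} (hn : m + 2 * h = n) (ε : Fin n → Bool) :
    Function.Involutive (sw m h hn ε) := by
  intro k
  by_cases h1 : m + h ≤ k.val
  · by_cases hε : ε ⟨k.val - h, by omega⟩ = true
    · have e1 : sw m h hn ε k = ⟨k.val - h, by omega⟩ := by
        unfold sw; rw [dif_pos h1, if_pos hε]
      rw [e1]
      unfold sw
      rw [dif_neg (by simp only; omega), dif_pos (by simp only; omega), if_pos hε]
      ext; simp only; omega
    · have e1 : sw m h hn ε k = k := by
        unfold sw; rw [dif_pos h1, if_neg hε]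
      rw [e1, e1]
  · by_cases h2 : m ≤ k.val
    · by_cases hε : ε k = true
      · have e1 : sw m h hn ε k = ⟨k.val + h, by omega⟩ := by
          unfold sw; rw [dif_neg h1, dif_pos h2, if_pos hε]
        rw [e1]
        have e2 : (⟨k.val + h - h, by omega⟩ : Fin n) = k := by ext; simp
        unfold sw
        rw [dif_pos (by simp only; omega)]
        simp only [e2, hε, if_true]
      · have e1 : sw m h hn ε k = k := by
          unfold sw; rw [dif_neg h1, dif_pos h2, if_neg hε]
        rw [e1, e1]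
    · have e1 : sw m h hn ε k = k := sw_sam hn ε (by omega)
      rw [e1, e1]

theorem sw_ge {m h : ℕ} (hn : m + 2 * h = n) (ε : Fin n → Bool) {k : Fin n} (hk : m ≤ k.val) :
    m ≤ (sw m h hn ε k).val := by
  unfold sw
  split_ifs <;> first | omega | (simp only; omega)

/-- the bit deciding the phase of `k` -/
def ix (m h : ℕ) (k : Fin n) : Fin n :=
  if m + h ≤ k.val then ⟨k.val - h, by omega⟩ else k

theorem sw_last {m h : ℕ} (hn : m + 2 * h = n) (ε : Fin n → Bool) {k : Fin n} (hk : m ≤ k.val)
    (hε : ε (ix m h k) = decide (k.val < m + h)) : m + h ≤ (sw m h hn ε k).val := by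
  unfold ix at hε
  by_cases h1 : m + h ≤ k.val
  · rw [if_pos h1, decide_eq_false (by omega)] at hε
    unfold sw
    rw [dif_pos h1, if_neg (by rw [hε]; decide)]
    exact h1
  · rw [if_neg h1, decide_eq_true (by omega)] at hε
    unfold sw
    rw [dif_neg h1, dif_pos hk, if_pos hε]
    simp only; omega

theorem sw_obs {m h : ℕ} (hn : m + 2 * h = n) (ε : Fin n → Bool) {k : Fin n} (hk : m ≤ k.val)
    (hε : ε (ix m h k) = decide (m + h ≤ k.val)) : (sw m h hn ε k).val < m + h := by
  unfold ix at hε
  by_cases h1 : m + h ≤ k.val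
  · rw [if_pos h1, decide_eq_true h1] at hε
    unfold sw
    rw [dif_pos h1, if_pos hε]
    simp only; omega
  · rw [if_neg h1, decide_eq_false h1] at hε
    unfold sw
    rw [dif_neg h1, dif_pos hk, if_neg (by rw [hε]; decide)]
    omega

omit [Fintype V] in
theorem inGrp_sw {m h : ℕ} (hn : m + 2 * h = n) (ε : Fin n → Bool) (ξ : V → Bool)
    (γ : Fin n → V × V) (k : Fin n) (x : V) :
    InGrp m ξ (γ ∘ sw m h hn ε) k x ↔ InGrp m ξ γ (sw m h hn ε k) x := by
  have hbd : ∀ c, SuppIn (Sam n m) c → bd (γ ∘ sw m h hn ε) c = bd γ c := by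
    intro c hc
    apply bd_congr
    intro e he
    have : e.val < m := by
      by_contra h'
      exact he (hc e h')
    rw [Function.comp_apply, sw_sam hn ε this]
  have heta : eta m (γ ∘ sw m h hn ε) = eta m γ :=
    eta_congr fun c hc => by rw [hbd c hc]
  unfold InGrp
  rw [heta]
  refine and_congr_right fun _ => exists_congr fun y => and_congr_right fun _ =>
    exists_congr fun c => and_congr_right fun hc => ?_
  rw [hbd c hc, Function.comp_apply]

open Classical in
omit [Fintype V] in
/-- for a quarter of the swaps the rules get at least the weight of `j` in the group of `x` -/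
theorem good_swaps {m h : ℕ} (hn : m + 2 * h = n) {ξ : V → Bool} {γ : Fin n → V × V}
    {ω : Fin n → ℝ} {x : V} {j : Fin n} (hj : m ≤ j.val) (hg : InGrp m ξ γ j x) :
    Fintype.card (Fin n → Bool) ≤ 4 * (univ.filter fun ε : Fin n → Bool =>
      ∃ st i, accG m h st ξ (γ ∘ sw m h hn ε) (ω ∘ sw m h hn ε) i x ∧
        ω j ≤ ω (sw m h hn ε i)).card := by
  let G : Finset (Fin n) := univ.filter fun k => m ≤ k.val ∧ InGrp m ξ γ k x
  have hG : ∀ k, k ∈ G ↔ m ≤ k.val ∧ InGrp m ξ γ k x := by intro k; simp [G]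
  obtain ⟨e1, he1, hmax⟩ := exists_max_image G ω ⟨j, (hG j).2 ⟨hj, hg⟩⟩
  have he1' := (hG e1).1 he1
  have hje : ω j ≤ ω e1 := hmax j ((hG j).2 ⟨hj, hg⟩)
  -- facts transported by a swap
  have htrans : ∀ ε : Fin n → Bool, ∀ k : Fin n, m ≤ k.val →
      InGrp m ξ (γ ∘ sw m h hn ε) k x → sw m h hn ε k ∈ G := by
    intro ε k hk hgk
    rw [hG]
    exact ⟨sw_ge hn ε hk, (inGrp_sw hn ε ξ γ k x).1 hgk⟩
  have hgrp : ∀ ε : Fin n → Bool, ∀ k ∈ G,
      InGrp m ξ (γ ∘ sw m h hn ε) (sw m h hn ε k) x := by
    intro ε k hk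
    rw [inGrp_sw, sw_invol hn ε k]
    exact ((hG k).1 hk).2
  by_cases hG1 : (G.erase e1).Nonempty
  · obtain ⟨e2, he2, hmax2⟩ := exists_max_image (G.erase e1) ω hG1
    have he2G : e2 ∈ G := Finset.mem_of_mem_erase he2
    have he2' := (hG e2).1 he2G
    have hne : e2 ≠ e1 := Finset.ne_of_mem_erase he2
    refine (card_two (ix m h e1) (ix m h e2) (decide (e1.val < m + h))
      (decide (m + h ≤ e2.val)) ?_).trans (Nat.mul_le_mul_left _ (Finset.card_le_card ?_))
    · intro hix
      unfold ix at hix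
      have hne' : e2.val ≠ e1.val := fun h => hne (Fin.ext h)
      have := Fin.ext_iff.1 hix
      by_cases h1 : m + h ≤ e1.val <;> by_cases h2 : m + h ≤ e2.val
      · exfalso
        rw [if_pos h1, if_pos h2] at this
        simp only at this
        omega
      · rw [decide_eq_false (by omega), decide_eq_false h2]
      · rw [decide_eq_true (by omega), decide_eq_true h2]
      · exfalso
        rw [if_neg h1, if_neg h2] at this
        omega
    · intro ε hε
      rw [Finset.mem_filter] at hε ⊢
      refine ⟨Finset.mem_univ _, ?_⟩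
      have h1 := sw_last hn ε he1'.1 hε.2.1
      have h2 := sw_obs hn ε he2'.1 hε.2.2
      obtain ⟨st, i, hacc, hle⟩ := group_success (ω := ω ∘ sw m h hn ε) h1 (hgrp ε e1 he1)
        (by
          intro k hk hgk
          simp only [Function.comp_apply, sw_invol hn ε e1]
          exact hmax _ (htrans ε k hk hgk))
        (Or.inl ⟨sw m h hn ε e2, sw_ge hn ε he2'.1, h2, hgrp ε e2 he2G, by
          intro k hk hgk hke
          simp only [Function.comp_apply, sw_invol hn ε e2]
          apply hmax2
          refine Finset.mem_erase.2 ⟨?_, htrans ε k hk hgk⟩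
          intro h
          apply hke
          rw [← h, sw_invol hn ε k]⟩)
      refine ⟨st, i, hacc, ?_⟩
      simp only [Function.comp_apply, sw_invol hn ε e1] at hle
      exact hje.trans hle
  · have hall : ∀ k ∈ G, k = e1 := by
      intro k hk
      by_contra hne
      exact hG1 ⟨k, Finset.mem_erase.2 ⟨hne, hk⟩⟩
    refine (card_two (ix m h e1) (ix m h e1) (decide (e1.val < m + h))
      (decide (e1.val < m + h)) (fun _ => rfl)).trans
      (Nat.mul_le_mul_left _ (Finset.card_le_card ?_))
    intro ε hε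
    rw [Finset.mem_filter] at hε ⊢
    refine ⟨Finset.mem_univ _, ?_⟩
    have h1 := sw_last hn ε he1'.1 hε.2.1
    obtain ⟨st, i, hacc, hle⟩ := group_success (ω := ω ∘ sw m h hn ε) h1 (hgrp ε e1 he1)
      (by
        intro k hk hgk
        simp only [Function.comp_apply, sw_invol hn ε e1]
        exact hmax _ (htrans ε k hk hgk))
      (Or.inr (by
        intro k hk hgk
        have := hall _ (htrans ε k hk hgk)
        rw [← this, sw_invol hn ε k]))
    refine ⟨st, i, hacc, ?_⟩
    simp only [Function.comp_apply, sw_invol hn ε e1] at hle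
    exact hje.trans hle

open Classical in
/-- total weight collected by the second mode, over all colourings, swaps and both rules -/
theorem total_K {m h : ℕ} (hn : m + 2 * h = n) {γ : Fin n → V × V} {ω : Fin n → ℝ}
    (hω : ∀ i, 0 ≤ ω i) (J : Finset (Fin n)) (hJm : ∀ j ∈ J, m ≤ j.val)
    (hJ : Ind γ (↑J : Set (Fin n))) (hp : ∀ j ∈ J, ∃ x y, Placed m γ j x y) :
    (Fintype.card (V → Bool) : ℝ) * Fintype.card (Fin n → Bool) * ∑ j ∈ J, ω j
      ≤ 16 * ∑ ξ : V → Bool, ∑ ε : Fin n → Bool, ∑ st : Bool, ∑ i : Fin n,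
        (if accK m h st ξ (γ ∘ sw m h hn ε) (ω ∘ sw m h hn ε) i then ω (sw m h hn ε i)
          else 0) := by
  obtain ⟨r, o, hro, hinj⟩ := exists_ends m γ J hJ hp
  let good : (V → Bool) → (Fin n → Bool) → Fin n → Prop := fun ξ ε j =>
    (ξ (r j) = true ∧ ξ (o j) = false) ∧
      ∃ st i, accG m h st ξ (γ ∘ sw m h hn ε) (ω ∘ sw m h hn ε) i (r j) ∧
        ω j ≤ ω (sw m h hn ε i)
  -- pointwise bound
  have hpt : ∀ ξ ε, ∑ j ∈ J, (if good ξ ε j then ω j else 0)
      ≤ ∑ st : Bool, ∑ i : Fin n,
        (if accK m h st ξ (γ ∘ sw m h hn ε) (ω ∘ sw m h hn ε) i then ω (sw m h hn ε i)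
          else 0) := by
    intro ξ ε
    rw [← Finset.sum_filter]
    have hch : ∀ j, good ξ ε j → ∃ p : Bool × Fin n,
        accG m h p.1 ξ (γ ∘ sw m h hn ε) (ω ∘ sw m h hn ε) p.2 (r j) ∧
          ω j ≤ ω (sw m h hn ε p.2) := fun j hj => by
      obtain ⟨st, i, h1, h2⟩ := hj.2
      exact ⟨(st, i), h1, h2⟩
    choose! P hP1 hP2 using hch
    have hinjP : Set.InjOn P (↑(J.filter fun j => good ξ ε j) : Set (Fin n)) := by
      intro j hj j' hj' hjj
      rw [Finset.mem_coe, Finset.mem_filter] at hj hj'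
      have h1 := hP1 j hj.2
      have h2 := hP1 j' hj'.2
      rw [hjj] at h1
      exact hinj j hj.1 j' hj'.1 (h1.1.2.1.unique h2.1.2.1)
    calc ∑ j ∈ J.filter (fun j => good ξ ε j), ω j
        ≤ ∑ j ∈ J.filter (fun j => good ξ ε j), ω (sw m h hn ε (P j).2) :=
          Finset.sum_le_sum fun j hj => hP2 j (Finset.mem_filter.1 hj).2
      _ = ∑ p ∈ (J.filter (fun j => good ξ ε j)).image P, ω (sw m h hn ε p.2) := by
          rw [Finset.sum_image hinjP]
      _ = ∑ p ∈ (J.filter (fun j => good ξ ε j)).image P,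
          (if accK m h p.1 ξ (γ ∘ sw m h hn ε) (ω ∘ sw m h hn ε) p.2 then
            ω (sw m h hn ε p.2) else 0) := by
          refine Finset.sum_congr rfl fun p hp => ?_
          obtain ⟨j, hj, hjp⟩ := Finset.mem_image.1 hp
          rw [if_pos]
          refine ⟨r j, ?_⟩
          rw [← hjp]
          exact hP1 j (Finset.mem_filter.1 hj).2
      _ ≤ ∑ p : Bool × Fin n,
          (if accK m h p.1 ξ (γ ∘ sw m h hn ε) (ω ∘ sw m h hn ε) p.2 then
            ω (sw m h hn ε p.2) else 0) := by
          apply Finset.sum_le_sum_of_subset_of_nonneg (Finset.subset_univ _)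
          intro p _ _
          split_ifs
          · exact hω _
          · exact le_rfl
      _ = _ := by rw [Fintype.sum_prod_type]
  -- number of good pairs
  have hcount : ∀ j ∈ J, (Fintype.card (V → Bool) : ℝ) * Fintype.card (Fin n → Bool)
      ≤ 16 * ∑ ξ : V → Bool, ∑ ε : Fin n → Bool, (if good ξ ε j then (1 : ℝ) else 0) := by
    intro j hj
    obtain ⟨hne, c, hc1, hc2, hc3⟩ := hro j hj
    have hξ : ∀ ξ : V → Bool, ξ (r j) = true ∧ ξ (o j) = false →
        (Fintype.card (Fin n → Bool) : ℝ)
          ≤ 4 * ∑ ε : Fin n → Bool, (if good ξ ε j then (1 : ℝ) else 0) := by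
      intro ξ hξ
      have hg : InGrp m ξ γ j (r j) := ⟨hξ.1, o j, hξ.2, c, hc1, hc2, hc3⟩
      have h1 := good_swaps hn (ω := ω) (hJm j hj) hg
      have h2 : ∑ ε : Fin n → Bool, (if good ξ ε j then (1 : ℝ) else 0)
          = ((univ.filter fun ε : Fin n → Bool =>
      ∃ st i, accG m h st ξ (γ ∘ sw m h hn ε) (ω ∘ sw m h hn ε) i (r j) ∧
        ω j ≤ ω (sw m h hn ε i)).card : ℝ) := by
        rw [Finset.natCast_card_filter]
        refine Finset.sum_congr rfl fun ε _ => ?_
        simp only [good, hξ, true_and, and_self]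
      rw [h2]
      exact_mod_cast h1
    have h3 := card_two (r j) (o j) true false (fun h => absurd h hne)
    have h4 : (Fintype.card (V → Bool) : ℝ) ≤ 4 *
        ((univ.filter fun ξ : V → Bool => ξ (r j) = true ∧ ξ (o j) = false).card : ℝ) := by
      exact_mod_cast h3
    have h5 : ((univ.filter fun ξ : V → Bool => ξ (r j) = true ∧ ξ (o j) = false).card : ℝ)
        * Fintype.card (Fin n → Bool)
        ≤ 4 * ∑ ξ : V → Bool, ∑ ε : Fin n → Bool, (if good ξ ε j then (1 : ℝ) else 0) := by
      rw [Finset.mul_sum]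
      calc ((univ.filter fun ξ : V → Bool => ξ (r j) = true ∧ ξ (o j) = false).card : ℝ)
            * Fintype.card (Fin n → Bool)
          = ∑ ξ ∈ univ.filter (fun ξ : V → Bool => ξ (r j) = true ∧ ξ (o j) = false),
              (Fintype.card (Fin n → Bool) : ℝ) := by
            rw [Finset.sum_const, nsmul_eq_mul]
        _ ≤ ∑ ξ ∈ univ.filter (fun ξ : V → Bool => ξ (r j) = true ∧ ξ (o j) = false),
              4 * ∑ ε : Fin n → Bool, (if good ξ ε j then (1 : ℝ) else 0) :=
            Finset.sum_le_sum fun ξ hξ' => hξ ξ (Finset.mem_filter.1 hξ').2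
        _ ≤ ∑ ξ : V → Bool, 4 * ∑ ε : Fin n → Bool, (if good ξ ε j then (1 : ℝ) else 0) := by
            apply Finset.sum_le_sum_of_subset_of_nonneg (Finset.subset_univ _)
            intro ξ _ _
            apply mul_nonneg (by norm_num)
            apply Finset.sum_nonneg
            intro ε _
            split_ifs <;> norm_num
    have hpos : (0 : ℝ) ≤ Fintype.card (Fin n → Bool) := Nat.cast_nonneg _
    nlinarith [mul_le_mul_of_nonneg_right h4 hpos]
  calc (Fintype.card (V → Bool) : ℝ) * Fintype.card (Fin n → Bool) * ∑ j ∈ J, ω j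
      = ∑ j ∈ J, ((Fintype.card (V → Bool) : ℝ) * Fintype.card (Fin n → Bool)) * ω j := by
        rw [Finset.mul_sum]
    _ ≤ ∑ j ∈ J, (16 * ∑ ξ : V → Bool, ∑ ε : Fin n → Bool,
          (if good ξ ε j then (1 : ℝ) else 0)) * ω j :=
        Finset.sum_le_sum fun j hj => mul_le_mul_of_nonneg_right (hcount j hj) (hω j)
    _ = 16 * ∑ ξ : V → Bool, ∑ ε : Fin n → Bool, ∑ j ∈ J, (if good ξ ε j then ω j else 0) := by
        have e1 : ∀ j ∈ J, (16 * ∑ ξ : V → Bool, ∑ ε : Fin n → Bool,
          (if good ξ ε j then (1 : ℝ) else 0)) * ω j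
          = 16 * ∑ ξ : V → Bool, ∑ ε : Fin n → Bool, (if good ξ ε j then ω j else 0) := by
          intro j _
          rw [mul_assoc, Finset.sum_mul]
          congr 1
          refine Finset.sum_congr rfl fun ξ _ => ?_
          rw [Finset.sum_mul]
          refine Finset.sum_congr rfl fun ε _ => ?_
          split_ifs <;> simp
        rw [Finset.sum_congr rfl e1, ← Finset.mul_sum, Finset.sum_comm]
        congr 1
        refine Finset.sum_congr rfl fun ξ _ => ?_
        rw [Finset.sum_comm]
    _ ≤ _ := by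
        apply mul_le_mul_of_nonneg_left _ (by norm_num : (0 : ℝ) ≤ 16)
        exact Finset.sum_le_sum fun ξ _ => Finset.sum_le_sum fun ε _ => hpt ξ ε

end Sec

end Pool.Agent.GMS
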